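import Pool.Agent.Q203.BD.Main

set_option autoImplicit false

/-!
# Plain paradoxes: the labelled trees, and the game
-/

namespace Pool.Agent.Q214.PP

open MeasureTheory Q203.BD

/-- labels: a number and a colour -/
abbrev L : Type := ℕ × Bool

/-- the same number with the opposite colour -/
def bar (l : L) : L := (l.1, !l.2)

@[simp] theorem bar_bar (l : L) : bar (bar l) = l := by
  obtain ⟨n, b⟩ := l
  simp [bar]

@[simp] theorem bar_fst (l : L) : (bar l).1 = l.1 := rfl

/-- four rooted labelled trees -/
abbrev Side : Type := Fin 4 → List (Fin 4) → L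

/-- labelled pointed trees: the label of the base point, and the two sides -/
abbrev W : Type := L × Side × Side

/-- the tree with given root label and given subtrees -/
def node (l : L) (v : Side) : List (Fin 4) → L
  | [] => l
  | e :: p => v e p

/-- the four trees hanging below a child -/
def sub (u : Side) (e : Fin 4) : Side := fun e' p => u e (e' :: p)

/-- moving the base point along its node -/
def fa (x : W) : W :=
  (x.2.1 0 [], ![x.2.1 1, x.2.1 2, x.2.1 3, node x.1 x.2.2], sub x.2.1 0)

/-- crossing to the other side -/
def fc (x : W) : W := (bar x.1, x.2.2, x.2.1)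

theorem node_eta (t : List (Fin 4) → L) : node (t []) (fun e p => t (e :: p)) = t := by
  funext p
  cases p <;> rfl

theorem node_sub' (u : Side) (e : Fin 4) : node (u e []) (sub u e) = u e := node_eta (u e)

theorem fa5 (x : W) : fa (fa (fa (fa (fa x)))) = x := by
  obtain ⟨l, u, v⟩ := x
  refine Prod.ext rfl (Prod.ext ?_ rfl)
  funext e
  fin_cases e
  · exact node_eta (u 0)
  · exact node_eta (u 1)
  · exact node_eta (u 2)
  · exact node_eta (u 3)

theorem fc_fc (x : W) : fc (fc x) = x := by
  obtain ⟨l, u, v⟩ := x
  simp [fc]

/-- the move along the node, as a permutation -/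
def pa : Equiv.Perm W where
  toFun := fa
  invFun := fun x => fa (fa (fa (fa x)))
  left_inv := fa5
  right_inv := fa5

/-- the crossing, as a permutation -/
def pc : Equiv.Perm W where
  toFun := fc
  invFun := fc
  left_inv := fc_fc
  right_inv := fc_fc

@[simp] theorem pa_apply (x : W) : pa x = fa x := rfl

@[simp] theorem pc_apply (x : W) : pc x = fc x := rfl

/-! ### Measurability -/

theorem measurable_node : Measurable fun q : L × Side => node q.1 q.2 := by
  refine measurable_pi_lambda _ fun p => ?_
  cases p with
  | nil => exact measurable_fst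
  | cons e p =>
    exact (measurable_pi_apply p).comp ((measurable_pi_apply e).comp measurable_snd)

theorem measurable_sub (e : Fin 4) : Measurable fun u : Side => sub u e :=
  measurable_pi_lambda _ fun e' => measurable_pi_lambda _ fun p =>
    (measurable_pi_apply (e' :: p)).comp (measurable_pi_apply e)

theorem measurable_bar : Measurable bar := Measurable.of_discrete

theorem measurable_fa : Measurable fa := by
  have h1 : Measurable fun x : W => x.2.1 := measurable_fst.comp measurable_snd
  have hc : ∀ e p, Measurable fun x : W => x.2.1 e p := fun e p =>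
    (measurable_pi_apply p).comp ((measurable_pi_apply e).comp h1)
  refine (hc 0 []).prodMk (Measurable.prodMk (measurable_pi_lambda _ fun e => ?_)
    ((measurable_sub 0).comp h1))
  fin_cases e
  · exact (measurable_pi_apply 1).comp h1
  · exact (measurable_pi_apply 2).comp h1
  · exact (measurable_pi_apply 3).comp h1
  · exact measurable_node.comp (measurable_fst.prodMk (measurable_snd.comp measurable_snd))

theorem measurable_fc : Measurable fc :=
  (measurable_bar.comp measurable_fst).prodMk ((measurable_snd.comp measurable_snd).prodMk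
    (measurable_fst.comp measurable_snd))

/-! ### Legal trees -/

/-- legal nodes: the numbers are distinct, and three of the five colours are `true` -/
def Nd5 (x0 x1 x2 x3 x4 : L) : Prop :=
  (x0.1 ≠ x1.1 ∧ x0.1 ≠ x2.1 ∧ x0.1 ≠ x3.1 ∧ x0.1 ≠ x4.1 ∧ x1.1 ≠ x2.1 ∧ x1.1 ≠ x3.1 ∧
    x1.1 ≠ x4.1 ∧ x2.1 ≠ x3.1 ∧ x2.1 ≠ x4.1 ∧ x3.1 ≠ x4.1) ∧
  x0.2.toNat + x1.2.toNat + x2.2.toNat + x3.2.toNat + x4.2.toNat = 3

theorem Nd5.rot {x0 x1 x2 x3 x4 : L} (h : Nd5 x0 x1 x2 x3 x4) : Nd5 x1 x2 x3 x4 x0 := by
  unfold Nd5 at *
  omega

/-- legal extensions of a label to a node -/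
def Nd (l : L) (m : Fin 4 → L) : Prop := Nd5 l (m 0) (m 1) (m 2) (m 3)

theorem nd_exists (l : L) : ∃ m, Nd l m := by
  obtain ⟨z, b⟩ := l
  cases b
  · refine ⟨![(z + 1, false), (z + 2, true), (z + 3, true), (z + 4, true)], ?_⟩
    simp [Nd, Nd5]
  · refine ⟨![(z + 1, false), (z + 2, false), (z + 3, true), (z + 4, true)], ?_⟩
    simp [Nd, Nd5]

open Classical in
/-- the correction of a node -/
noncomputable def fixn (l : L) (m : Fin 4 → L) : Fin 4 → L :=
  if Nd l m then m else (nd_exists l).choose

theorem fixn_nd (l : L) (m : Fin 4 → L) : Nd l (fixn l m) := by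
  unfold fixn
  split_ifs with h
  · exact h
  · exact (nd_exists l).choose_spec

theorem fixn_of {l : L} {m : Fin 4 → L} (h : Nd l m) : fixn l m = m := if_pos h

/-- the correction of a tree, at a given vertex -/
noncomputable def corrAux : List (Fin 4) → L → Side → Fin 4 → L
  | [], l, u, e => fixn l (fun e => u e []) e
  | e' :: p, l, u, e => corrAux p (bar (fixn l (fun e => u e []) e)) (sub u e) e'

/-- the correction of a tree -/
noncomputable def corr (l : L) (u : Side) : Side := fun e p => corrAux p l u e

theorem corr_nil (l : L) (u : Side) (e : Fin 4) : corr l u e [] = fixn l (fun e => u e []) e := rfl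

theorem sub_corr (l : L) (u : Side) (e : Fin 4) :
    sub (corr l u) e = corr (bar (corr l u e [])) (sub u e) := rfl

/-- legal sides -/
def Leg (l : L) (u : Side) : Prop := corr l u = u

theorem leg_corr (l : L) (u : Side) : Leg l (corr l u) := by
  have key : ∀ (p : List (Fin 4)) (l : L) (u : Side) (e : Fin 4),
      corrAux p l (corr l u) e = corrAux p l u e := by
    intro p
    induction p with
    | nil =>
      intro l u e
      have h : (fun e => corr l u e []) = fixn l (fun e => u e []) := rfl
      show fixn l (fun e => corr l u e []) e = fixn l (fun e => u e []) e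
      rw [h, fixn_of (fixn_nd _ _)]
    | cons e' p ih =>
      intro l u e
      have h : (fun e => corr l u e []) = fixn l (fun e => u e []) := rfl
      show corrAux p (bar (fixn l (fun e => corr l u e []) e)) (sub (corr l u) e) e' =
        corrAux p (bar (fixn l (fun e => u e []) e)) (sub u e) e'
      rw [h, fixn_of (fixn_nd _ _), sub_corr, corr_nil, ih]
  funext e p
  exact key p l u e

theorem leg_iff (l : L) (u : Side) :
    Leg l u ↔ Nd l (fun e => u e []) ∧ ∀ e, Leg (bar (u e [])) (sub u e) := by
  constructor
  · intro h
    have h0 : (fun e => u e []) = fixn l (fun e => u e []) := by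
      funext e
      calc u e [] = corr l u e [] := by rw [h]
        _ = _ := rfl
    refine ⟨?_, fun e => ?_⟩
    · rw [h0]
      exact fixn_nd _ _
    · have h1 := sub_corr l u e
      rw [h] at h1
      exact h1.symm
  · rintro ⟨h1, h2⟩
    funext e p
    cases p with
    | nil =>
      show fixn l (fun e => u e []) e = _
      rw [fixn_of h1]
    | cons e' p =>
      show corrAux p (bar (fixn l (fun e => u e []) e)) (sub u e) e' = _
      rw [fixn_of h1]
      exact congrFun (congrFun (h2 e) e') p

theorem measurable_corrAux (p : List (Fin 4)) :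
    ∀ e, Measurable fun q : L × Side => corrAux p q.1 q.2 e := by
  have h0 : ∀ e, Measurable fun q : L × Side => fixn q.1 (fun e => q.2 e []) e := by
    intro e
    have h1 : Measurable fun q : L × Side => (q.1, fun e => q.2 e []) :=
      measurable_fst.prodMk (measurable_pi_lambda _ fun e =>
        (measurable_pi_apply _).comp ((measurable_pi_apply e).comp measurable_snd))
    have h2 : Measurable fun r : L × (Fin 4 → L) => fixn r.1 r.2 e := Measurable.of_discrete
    exact h2.comp h1
  induction p with
  | nil => exact h0
  | cons e' p ih =>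
    intro e
    exact (ih e').comp ((measurable_bar.comp (h0 e)).prodMk ((measurable_sub e).comp measurable_snd))

theorem measurable_corr : Measurable fun q : L × Side => corr q.1 q.2 :=
  measurable_pi_lambda _ fun e => measurable_pi_lambda _ fun p => measurable_corrAux p e

theorem measurableSet_leg : MeasurableSet {q : L × Side | Leg q.1 q.2} :=
  measurableSet_eq_fun measurable_corr measurable_snd

/-- legal worlds -/
def Y : Set W := {w | Leg w.1 w.2.1 ∧ Leg (bar w.1) w.2.2}

theorem measurableSet_Y : MeasurableSet Y := by
  refine MeasurableSet.inter ?_ ?_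
  · exact (measurable_fst.prodMk (measurable_fst.comp measurable_snd)) measurableSet_leg
  · exact ((measurable_bar.comp measurable_fst).prodMk (measurable_snd.comp measurable_snd))
      measurableSet_leg

theorem fc_mem {w : W} (h : w ∈ Y) : fc w ∈ Y := by
  refine ⟨h.2, ?_⟩
  show Leg (bar (bar w.1)) w.2.1
  rw [bar_bar]
  exact h.1

theorem fa_mem {w : W} (h : w ∈ Y) : fa w ∈ Y := by
  obtain ⟨l, u, v⟩ := w
  obtain ⟨h1, h2⟩ := h
  have h3 := (leg_iff l u).1 h1
  refine ⟨?_, h3.2 0⟩
  show Leg (u 0 []) ![u 1, u 2, u 3, node l v]
  rw [leg_iff]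
  refine ⟨Nd5.rot h3.1, fun e => ?_⟩
  fin_cases e
  · exact h3.2 1
  · exact h3.2 2
  · exact h3.2 3
  · exact h2

end Pool.Agent.Q214.PP
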