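import Pool.Agent.Q214.PP.A

set_option autoImplicit false

/-!
# Plain paradoxes: the game
-/

namespace Pool.Agent.Q214.PP

open MeasureTheory Q203.BD

/-- two sides agree up to level `s` -/
def Agr (s : ℕ) (u u' : Side) : Prop := ∀ e p, p.length ≤ s → u e p = u' e p

/-- causal maps between sides -/
def Lip (Φ : Side → Side) : Prop := ∀ s u u', Agr s u u' → Agr s (Φ u) (Φ u')

theorem Agr.mono {s t : ℕ} (h : s ≤ t) {u u' : Side} (hu : Agr t u u') : Agr s u u' :=
  fun e p hp => hu e p (hp.trans h)

theorem agr_sub {s : ℕ} {u u' : Side} (h : Agr (s + 1) u u') (e : Fin 4) :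
    Agr s (sub u e) (sub u' e) := fun e' p hp => h e (e' :: p) (by simpa using hp)

theorem agr_corr (l : L) {s : ℕ} {u u' : Side} (h : Agr s u u') : Agr s (corr l u) (corr l u') := by
  have key : ∀ (p : List (Fin 4)) (l : L) (u u' : Side) (e : Fin 4), Agr p.length u u' →
      corrAux p l u e = corrAux p l u' e := by
    intro p
    induction p with
    | nil =>
      intro l u u' e h
      have h0 : (fun e => u e []) = fun e => u' e [] := by
        funext e
        exact h e [] (Nat.zero_le _)
      show fixn l (fun e => u e []) e = fixn l (fun e => u' e []) e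
      rw [h0]
    | cons e' p ih =>
      intro l u u' e h
      have h0 : (fun e => u e []) = fun e => u' e [] := by
        funext e
        exact h e [] (Nat.zero_le _)
      show corrAux p (bar (fixn l (fun e => u e []) e)) (sub u e) e' =
        corrAux p (bar (fixn l (fun e => u' e []) e)) (sub u' e) e'
      rw [h0]
      exact ih _ _ _ _ (agr_sub h e)
  intro e p hp
  exact key p l u u' e (h.mono hp)

/-- the opposite side at the point `n` of the node -/
def opp (l : ZMod 5 → L) (S : ZMod 5 → Side) (n : ZMod 5) : Side :=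
  ![node (l (n + 1)) (S (n + 1)), node (l (n + 2)) (S (n + 2)), node (l (n + 3)) (S (n + 3)),
    node (l (n + 4)) (S (n + 4))]

theorem agr_opp (l : ZMod 5 → L) {S S' : ZMod 5 → Side} {s : ℕ}
    (h : ∀ n e p, p.length < s → S n e p = S' n e p) (n : ZMod 5) :
    Agr s (opp l S n) (opp l S' n) := by
  have key : ∀ m : ZMod 5, ∀ p : List (Fin 4), p.length ≤ s →
      node (l m) (S m) p = node (l m) (S' m) p := by
    intro m p hp
    cases p with
    | nil => rfl
    | cons e' p' => exact h m e' p' (by simpa using hp)
  intro e p hp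
  fin_cases e
  · exact key _ p hp
  · exact key _ p hp
  · exact key _ p hp
  · exact key _ p hp

/-- causal strategies on the far sides of a node can be played against each other -/
theorem combine (l : ZMod 5 → L) (Φ : ZMod 5 → Side → Side) (hΦ : ∀ n, Lip (Φ n)) :
    ∃ S : ZMod 5 → Side, ∀ n, S n = Φ n (opp l S n) := by
  let T : (ZMod 5 → Side) → ZMod 5 → Side := fun S n => Φ n (opp l S n)
  let R : ℕ → ZMod 5 → Side := fun k => T^[k] (fun _ _ _ => (0, false))
  have hR : ∀ k, R (k + 1) = T (R k) := fun k => Function.iterate_succ_apply' T k _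
  have hT : ∀ (S S' : ZMod 5 → Side) (s : ℕ), (∀ n e p, p.length < s → S n e p = S' n e p) →
      ∀ n e p, p.length < s + 1 → T S n e p = T S' n e p := fun S S' s h n e p hp =>
    hΦ n s _ _ (agr_opp l h n) e p (by omega)
  have h1 : ∀ k n e p, p.length < k → R (k + 1) n e p = R k n e p := by
    intro k
    induction k with
    | zero => exact fun n e p hp => absurd hp (Nat.not_lt_zero _)
    | succ k ih =>
      intro n e p hp
      have h := hT (R (k + 1)) (R k) k ih n e p hp
      rw [← hR, ← hR] at h
      exact h
  have h2 : ∀ k j n e p, p.length < k → R (k + j) n e p = R k n e p := by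
    intro k j
    induction j with
    | zero => exact fun n e p hp => rfl
    | succ j ih =>
      intro n e p hp
      rw [← ih n e p hp]
      exact h1 (k + j) n e p (by omega)
  let S : ZMod 5 → Side := fun n e p => R (p.length + 1) n e p
  have h3 : ∀ k n e p, p.length < k → S n e p = R k n e p := by
    intro k n e p hp
    obtain ⟨j, rfl⟩ : ∃ j, k = p.length + 1 + j := ⟨k - (p.length + 1), by omega⟩
    exact (h2 (p.length + 1) j n e p (Nat.lt_succ_self _)).symm
  refine ⟨S, fun n => ?_⟩
  funext e p
  show R (p.length + 1) n e p = T S n e p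
  rw [hR]
  exact (hT S (R p.length) p.length (fun n e q hq => h3 _ n e q hq) n e p (Nat.lt_succ_self _)).symm

/-- the points of a node, from the far sides -/
theorem fa_opp (l : ZMod 5 → L) (S : ZMod 5 → Side) (n : ZMod 5) :
    fa (l n, opp l S n, S n) = (l (n + 1), opp l S (n + 1), S (n + 1)) := by
  have e1 : n + 1 + 1 = n + 2 := by ring
  have e2 : n + 1 + 2 = n + 3 := by ring
  have e3 : n + 1 + 3 = n + 4 := by ring
  have e4 : n + 1 + 4 = n := by
    have : (5 : ZMod 5) = 0 := by decide
    calc n + 1 + 4 = n + 5 := by ring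
      _ = n := by rw [this, add_zero]
  refine Prod.ext rfl (Prod.ext ?_ rfl)
  show ![node (l (n + 2)) _, node (l (n + 3)) _, node (l (n + 4)) _, node (l n) _] = opp l S (n + 1)
  unfold opp
  rw [e1, e2, e3, e4]

/-! ### The game -/

/-- moves of the game: a player proposes labels for all the vertices on one of the sides, of which
only those on the current level will be used -/
def Mv : Type := Side

instance : TopologicalSpace Mv := ⊥

instance : DiscreteTopology Mv := ⟨rfl⟩

instance : Nonempty Mv := ⟨(fun _ _ => (0, false) : Side)⟩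

/-- the label proposed by a move -/
def Mv.lab (m : Mv) (e : Fin 4) (p : List (Fin 4)) : L := (m : Side) e p

/-- the move given by a side -/
def Mv.of (u : Side) : Mv := u

theorem lab_of (u : Side) (e : Fin 4) (p : List (Fin 4)) : (Mv.of u).lab e p = u e p := rfl

/-- the outcome of the game: the players label the two sides, level by level -/
def outc (z : ℕ → Mv) : Side × Side :=
  (fun e p => (z (2 * p.length)).lab e p, fun e p => (z (2 * p.length + 1)).lab e p)

theorem measurable_outc : @Measurable (ℕ → Mv) (Side × Side) (borel _) _ outc := by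
  letI : MeasurableSpace (ℕ → Mv) := borel _
  haveI : BorelSpace (ℕ → Mv) := ⟨rfl⟩
  have hc : ∀ (k : ℕ) (e : Fin 4) (p : List (Fin 4)), Measurable fun z : ℕ → Mv => (z k).lab e p := by
    intro k e p
    have : Continuous fun z : ℕ → Mv => (z k).lab e p :=
      (continuous_of_discreteTopology (f := fun m : Mv => m.lab e p)).comp (continuous_apply k)
    exact this.measurable
  exact Measurable.prodMk
    (measurable_pi_lambda _ fun e => measurable_pi_lambda _ fun p => hc _ e p)
    (measurable_pi_lambda _ fun e => measurable_pi_lambda _ fun p => hc _ e p)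

/-- recursion -/
theorem exists_rec {Z : Type} [Nonempty Z] (G : ℕ → (ℕ → Z) → Z)
    (hG : ∀ s F F', (∀ r < s, F r = F' r) → G s F = G s F') : ∃ F : ℕ → Z, ∀ s, F s = G s F := by
  classical
  obtain ⟨z0⟩ := ‹Nonempty Z›
  let P : ℕ → ℕ → Z := fun t => Nat.rec (fun _ => z0) (fun s p => Function.update p s (G s p)) t
  have hP : ∀ t, P (t + 1) = Function.update (P t) t (G t (P t)) := fun t => rfl
  have hst : ∀ t s r, r < s → s ≤ t → P t r = P s r := by
    intro t s r hr hs
    induction t, hs using Nat.le_induction with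
    | base => rfl
    | succ t ht ih =>
      rw [hP, Function.update_of_ne (by omega), ih]
  refine ⟨fun s => P (s + 1) s, fun s => ?_⟩
  show P (s + 1) s = _
  rw [hP, Function.update_self]
  apply hG
  intro r hr
  exact hst s (r + 1) r (by omega) (by omega)

theorem hist_congr {X : Type} {z w : ℕ → X} {n : ℕ} (h : ∀ m < n, z m = w m) :
    hist z n = hist w n := (hist_eq_iff z w n).2 h

/-- truncation of a side to the levels at most `s` -/
def trunc (s : ℕ) (u : Side) : Mv := Mv.of fun e p => if p.length ≤ s then u e p else (0, false)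

theorem trunc_congr {s : ℕ} {u u' : Side} (h : Agr s u u') : trunc s u = trunc s u' := by
  unfold trunc
  congr 1
  funext e p
  split_ifs with hp
  · exact h e p hp
  · rfl

/-- Uniqueness for recursions. -/
theorem rec_agree {Z : Type} {G G' : ℕ → (ℕ → Z) → Z} {N : ℕ}
    (hG : ∀ s < N, ∀ F F', (∀ r < s, F r = F' r) → G s F = G' s F') {F F' : ℕ → Z}
    (hF : ∀ s, F s = G s F) (hF' : ∀ s, F' s = G' s F') : ∀ s < N, F s = F' s := by
  intro s
  induction s using Nat.strong_induction_on with
  | _ s ih =>
    intro hs
    rw [hF, hF']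
    exact hG s hs F F' fun r hr => ih r hr (by omega)

/-- **Determinacy** in terms of causal maps. -/
theorem det {Q : Set (Side × Side)} (hQ : MeasurableSet Q) :
    (∃ Φ, Lip Φ ∧ ∀ u, (u, Φ u) ∈ Q) ∨ ∃ Φ, Lip Φ ∧ ∀ v, (Φ v, v) ∉ Q := by
  classical
  rcases borel_determinacy (X := Mv) (A := outc ⁻¹' Qᶜ)
    (measurable_outc hQ.compl) with ⟨σ, h⟩ | ⟨τ, h⟩
  · right
    let G : Side → ℕ → (ℕ → Mv) → Mv := fun v k F =>
      if Even k then σ (hist F k) else trunc (k / 2) v
    have hG : ∀ v s F F', (∀ r < s, F r = F' r) → G v s F = G v s F' := by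
      intro v s F F' h
      show (if _ then _ else _) = if _ then _ else _
      rw [hist_congr h]
    have hex : ∀ v, ∃ F : ℕ → Mv, ∀ s, F s = G v s F := fun v => exists_rec (G v) (hG v)
    choose F hF using hex
    refine ⟨fun v => (outc (F v)).1, ?_, fun v => ?_⟩
    · intro s v v' hv e p hp
      show (F v (2 * p.length)).lab e p = (F v' (2 * p.length)).lab e p
      rw [rec_agree (N := 2 * s + 2) ?_ (hF v) (hF v') (2 * p.length) (by omega)]
      intro k hk F F' h
      show (if _ then _ else _) = if _ then _ else _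
      rw [hist_congr h, trunc_congr (hv.mono (show k / 2 ≤ s by omega))]
    · have h1 := h (F v) (by
        intro n hn
        rw [hF]
        show (if _ then _ else _) = _
        rw [if_pos hn])
      have h2 : outc (F v) = ((outc (F v)).1, v) := by
        refine Prod.ext rfl ?_
        funext e p
        show (F v (2 * p.length + 1)).lab e p = v e p
        rw [hF]
        show (if _ then _ else _ : Mv).lab e p = _
        rw [if_neg (by rw [Nat.not_even_iff]; omega), show (2 * p.length + 1) / 2 = p.length by omega]
        show (if p.length ≤ p.length then _ else _) = _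
        rw [if_pos le_rfl]
      have h3 : outc (F v) ∉ Q := h1
      rw [h2] at h3
      exact h3
  · left
    let G : Side → ℕ → (ℕ → Mv) → Mv := fun u k F =>
      if Even k then trunc (k / 2) u else τ (hist F k)
    have hG : ∀ v s F F', (∀ r < s, F r = F' r) → G v s F = G v s F' := by
      intro v s F F' h
      show (if _ then _ else _) = if _ then _ else _
      rw [hist_congr h]
    have hex : ∀ v, ∃ F : ℕ → Mv, ∀ s, F s = G v s F := fun v => exists_rec (G v) (hG v)
    choose F hF using hex
    refine ⟨fun v => (outc (F v)).2, ?_, fun u => ?_⟩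
    · intro s v v' hv e p hp
      show (F v (2 * p.length + 1)).lab e p = (F v' (2 * p.length + 1)).lab e p
      rw [rec_agree (N := 2 * s + 2) ?_ (hF v) (hF v') (2 * p.length + 1) (by omega)]
      intro k hk F F' h
      show (if _ then _ else _) = if _ then _ else _
      rw [hist_congr h, trunc_congr (hv.mono (show k / 2 ≤ s by omega))]
    · have h1 := h (F u) (by
        intro n hn
        rw [hF]
        show (if _ then _ else _) = _
        rw [if_neg hn])
      have h2 : outc (F u) = (u, (outc (F u)).2) := by
        refine Prod.ext ?_ rfl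
        funext e p
        show (F u (2 * p.length)).lab e p = u e p
        rw [hF]
        show (if _ then _ else _ : Mv).lab e p = _
        rw [if_pos (by simp), show (2 * p.length) / 2 = p.length by omega]
        show (if p.length ≤ p.length then _ else _) = _
        rw [if_pos le_rfl]
      have h3 : outc (F u) ∈ Q := not_not.1 h1
      rw [h2] at h3
      exact h3

/-- the own side can force `Q` -/
def Own (l : L) (Q : Set W) : Prop :=
  ∃ Φ, Lip Φ ∧ ∀ v, Leg l (Φ v) ∧ (Leg (bar l) v → (l, Φ v, v) ∈ Q)

/-- the far side can force `Q` -/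
def Far (l : L) (Q : Set W) : Prop :=
  ∃ Φ, Lip Φ ∧ ∀ u, Leg (bar l) (Φ u) ∧ (Leg l u → (l, u, Φ u) ∈ Q)

theorem own_far {l : L} {Q : Set W} (h : Own l Q) : Far (bar l) {w | fc w ∈ Q} := by
  obtain ⟨Φ, h1, h2⟩ := h
  refine ⟨Φ, h1, fun u => ⟨?_, fun hu => ?_⟩⟩
  · rw [bar_bar]
    exact (h2 u).1
  · show (bar (bar l), Φ u, u) ∈ Q
    rw [bar_bar]
    exact (h2 u).2 hu

theorem far_or_own (l : L) {Q : Set W} (hQ : MeasurableSet Q) : Far l Q ∨ Own l Qᶜ := by
  let Q' : Set (Side × Side) := {q | (l, corr l q.1, corr (bar l) q.2) ∈ Q}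
  have hQ' : MeasurableSet Q' := by
    have h1 : Measurable fun q : Side × Side => ((l, corr l q.1, corr (bar l) q.2) : W) :=
      measurable_const.prodMk ((measurable_corr.comp (measurable_const.prodMk measurable_fst)).prodMk
        (measurable_corr.comp (measurable_const.prodMk measurable_snd)))
    exact h1 hQ
  rcases det hQ' with ⟨Φ, h1, h2⟩ | ⟨Φ, h1, h2⟩
  · left
    refine ⟨fun u => corr (bar l) (Φ u), fun s u u' h => agr_corr _ (h1 s u u' h), fun u =>
      ⟨leg_corr _ _, fun hu => ?_⟩⟩
    have h3 : (l, corr l u, corr (bar l) (Φ u)) ∈ Q := h2 u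
    rwa [show corr l u = u from hu] at h3
  · right
    refine ⟨fun u => corr l (Φ u), fun s u u' h => agr_corr _ (h1 s u u' h), fun v =>
      ⟨leg_corr _ _, fun hv => ?_⟩⟩
    have h3 : (l, corr l (Φ v), corr (bar l) v) ∉ Q := h2 v
    rwa [show corr (bar l) v = v from hv] at h3

/-- If the far sides can force the sets `Q n` at the points of a legal node, then there is such a
node. -/
theorem far_combine {l : ZMod 5 → L} {Q : ZMod 5 → Set W}
    (hl : Nd5 (l 0) (l 1) (l 2) (l 3) (l 4)) (h : ∀ n, Far (l n) (Q n)) :
    ∃ x : ZMod 5 → W, (∀ n, x n ∈ Y) ∧ (∀ n, fa (x n) = x (n + 1)) ∧ ∀ n, x n ∈ Q n := by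
  choose Φ h1 h2 using h
  obtain ⟨S, hS⟩ := combine l Φ h1
  have hfar : ∀ n, Leg (bar (l n)) (S n) := by
    intro n
    rw [hS n]
    exact (h2 n _).1
  have hnd : ∀ n : ZMod 5, Nd5 (l n) (l (n + 1)) (l (n + 2)) (l (n + 3)) (l (n + 4)) := by
    have hr := hl.rot
    have hr2 := hr.rot
    have hr3 := hr2.rot
    have hr4 := hr3.rot
    intro n
    fin_cases n
    · exact hl
    · exact hr
    · exact hr2
    · exact hr3
    · exact hr4
  have hown : ∀ n, Leg (l n) (opp l S n) := by
    intro n
    rw [leg_iff]
    refine ⟨hnd n, fun e => ?_⟩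
    fin_cases e
    · exact hfar (n + 1)
    · exact hfar (n + 2)
    · exact hfar (n + 3)
    · exact hfar (n + 4)
  refine ⟨fun n => (l n, opp l S n, S n), fun n => ⟨hown n, hfar n⟩, fun n => fa_opp l S n,
    fun n => ?_⟩
  have h3 := (h2 n (opp l S n)).2 (hown n)
  rw [← hS n] at h3
  exact h3

end Pool.Agent.Q214.PP
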