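import Pool.Agent.Q214.PP.B

set_option autoImplicit false

/-!
# Plain paradoxes: the induction
-/

namespace Pool.Agent.Q214.PP

open MeasureTheory

theorem sum5 (f : ZMod 5 → ℤ) : ∑ n, f n = f 0 + f 1 + f 2 + f 3 + f 4 := Fin.sum_univ_five f

/-- Legal nodes with two prescribed labels of the same colour and large other numbers. -/
theorem exists_node (z0 z1 : ℕ) (hz : z0 < z1) (ε : Bool) (Z : ℕ) :
    ∃ l : ZMod 5 → L, Nd5 (l 0) (l 1) (l 2) (l 3) (l 4) ∧ l 0 = (z0, ε) ∧ l 1 = (z1, ε) ∧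
      Z ≤ (l 2).1 ∧ Z ≤ (l 3).1 ∧ Z ≤ (l 4).1 := by
  refine ⟨(![(z0, ε), (z1, ε), (z1 + Z + 1, true), (z1 + Z + 2, !ε), (z1 + Z + 3, !ε)] :
    Fin 5 → L), ?_, rfl, rfl, ?_, ?_, ?_⟩
  · show Nd5 (z0, ε) (z1, ε) (z1 + Z + 1, true) (z1 + Z + 2, !ε) (z1 + Z + 3, !ε)
    cases ε <;> simp [Nd5] <;> omega
  · show Z ≤ z1 + Z + 1
    omega
  · show Z ≤ z1 + Z + 2
    omega
  · show Z ≤ z1 + Z + 3
    omega

/-- **The core of the argument.** There are no Borel flows with ages. -/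
theorem core (K : ℕ → W → ℤ) (h0 : W → ℤ) (hm : ∀ j, Measurable (K j))
    (hF1 : ∀ j (x : ZMod 5 → W), (∀ n, x n ∈ Y) → (∀ n, fa (x n) = x (n + 1)) →
      ∑ n, K j (x n) ≤ 1)
    (hF0 : ∀ x : ZMod 5 → W, (∀ n, x n ∈ Y) → (∀ n, fa (x n) = x (n + 1)) →
      2 ≤ ∑ n, h0 (x n))
    (hF3 : ∀ j, ∀ w ∈ Y, 0 ≤ K (j + 1) w + K (j + 2) (fc w))
    (hF2 : ∀ w ∈ Y, h0 w ≤ K 0 w + K 1 (fc w))
    (hF4 : ∃ N, ∀ w ∈ Y, K (N + 1) w ≤ 0) : False := by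
  have hbar : ∀ (l : L) (j : ℕ), Own (bar l) {w | K j w ≤ 0} → Far l {w | K j (fc w) ≤ 0} := by
    intro l j h
    have h1 := own_far h
    rw [bar_bar] at h1
    exact h1
  have step : ∀ j, (∃ Z, ∀ z ≥ Z, ∀ ε, Own (z, ε) {w | K (j + 2) w ≤ 0}) →
      ∃ Z, ∀ z ≥ Z, ∀ ε, Own (z, ε) {w | K (j + 1) w ≤ 0} := by
    rintro j ⟨Z, hZ⟩
    by_contra hno
    push Not at hno
    have hQ : MeasurableSet {w : W | 1 ≤ K (j + 1) w} :=
      hm (j + 1) (MeasurableSet.of_discrete (s := {k : ℤ | 1 ≤ k}))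
    have hfar : ∀ Z, ∃ z ≥ Z, ∃ ε, Far (z, ε) {w | 1 ≤ K (j + 1) w} := by
      intro Z
      obtain ⟨z, hz, ε, h⟩ := hno Z
      refine ⟨z, hz, ε, (far_or_own (z, ε) hQ).resolve_right fun h' => h ?_⟩
      have e : {w : W | 1 ≤ K (j + 1) w}ᶜ = {w | K (j + 1) w ≤ 0} := by
        ext w
        simp only [Set.mem_compl_iff, Set.mem_setOf_eq]
        omega
      rwa [e] at h'
    obtain ⟨ε, hε⟩ : ∃ ε, ∀ Z, ∃ z ≥ Z, Far (z, ε) {w | 1 ≤ K (j + 1) w} := by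
      by_contra hcon
      push Not at hcon
      obtain ⟨Z1, h1⟩ := hcon true
      obtain ⟨Z2, h2⟩ := hcon false
      obtain ⟨z, hz, ε, h⟩ := hfar (max Z1 Z2)
      cases ε
      · exact h2 z (le_trans (le_max_right _ _) hz) h
      · exact h1 z (le_trans (le_max_left _ _) hz) h
    obtain ⟨z0, -, hz0⟩ := hε 0
    obtain ⟨z1, hz1, hz1'⟩ := hε (z0 + 1)
    obtain ⟨l, hl, hl0, hl1, hl2, hl3, hl4⟩ := exists_node z0 z1 hz1 ε Z
    have hg : ∀ m : L, Z ≤ m.1 → Far m {w | K (j + 2) (fc w) ≤ 0} := fun m hm' =>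
      hbar m (j + 2) (hZ m.1 hm' (!m.2))
    let Q : ZMod 5 → Set W := (![{w | 1 ≤ K (j + 1) w}, {w | 1 ≤ K (j + 1) w},
      {w | K (j + 2) (fc w) ≤ 0}, {w | K (j + 2) (fc w) ≤ 0}, {w | K (j + 2) (fc w) ≤ 0}] :
        Fin 5 → Set W)
    have hQn : ∀ n, Far (l n) (Q n) := by
      intro n
      fin_cases n
      · show Far (l 0) _
        rw [hl0]
        exact hz0
      · show Far (l 1) _
        rw [hl1]
        exact hz1'
      · exact hg (l 2) hl2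
      · exact hg (l 3) hl3
      · exact hg (l 4) hl4
    obtain ⟨x, hxY, hxa, hxQ⟩ := far_combine hl hQn
    have h1 := hF1 (j + 1) x hxY hxa
    rw [sum5] at h1
    have a0 : 1 ≤ K (j + 1) (x 0) := hxQ 0
    have a1 : 1 ≤ K (j + 1) (x 1) := hxQ 1
    have a2 : K (j + 2) (fc (x 2)) ≤ 0 := hxQ 2
    have a3 : K (j + 2) (fc (x 3)) ≤ 0 := hxQ 3
    have a4 : K (j + 2) (fc (x 4)) ≤ 0 := hxQ 4
    have b2 := hF3 j (x 2) (hxY 2)
    have b3 := hF3 j (x 3) (hxY 3)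
    have b4 := hF3 j (x 4) (hxY 4)
    omega
  have base : ∃ N, ∃ Z, ∀ z ≥ Z, ∀ ε, Own (z, ε) {w | K (N + 1) w ≤ 0} := by
    obtain ⟨N, hN⟩ := hF4
    refine ⟨N, 0, fun z _ ε => ⟨fun _ => corr (z, ε) fun _ _ => (0, false), ?_, fun v =>
      ⟨leg_corr _ _, fun hv => hN _ ⟨leg_corr _ _, hv⟩⟩⟩⟩
    exact fun s u u' _ e p _ => rfl
  have P0 : ∃ Z, ∀ z ≥ Z, ∀ ε, Own (z, ε) {w | K (0 + 1) w ≤ 0} := by
    obtain ⟨N, hN⟩ := base
    induction N with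
    | zero => exact hN
    | succ N ih => exact ih (step N hN)
  obtain ⟨Z, hZ⟩ := P0
  obtain ⟨l, hl, hl0, hl1, hl2, hl3, hl4⟩ := exists_node Z (Z + 1) (Nat.lt_succ_self _) true Z
  have hg : ∀ m : L, Z ≤ m.1 → Far m {w | K 1 (fc w) ≤ 0} := fun m hm' =>
    hbar m 1 (hZ m.1 hm' (!m.2))
  have hQn : ∀ n, Far (l n) {w | K 1 (fc w) ≤ 0} := by
    intro n
    fin_cases n
    · exact hg (l 0) (by rw [hl0])
    · exact hg (l 1) (by rw [hl1]; exact Nat.le_succ _)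
    · exact hg (l 2) hl2
    · exact hg (l 3) hl3
    · exact hg (l 4) hl4
  obtain ⟨x, hxY, hxa, hxQ⟩ := far_combine hl hQn
  have h1 := hF1 0 x hxY hxa
  have h2 := hF0 x hxY hxa
  have h3 : ∑ n, h0 (x n) ≤ ∑ n, K 0 (x n) := Finset.sum_le_sum fun n _ => by
    have a := hF2 (x n) (hxY n)
    have b : K 1 (fc (x n)) ≤ 0 := hxQ n
    omega
  omega

end Pool.Agent.Q214.PP
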