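import Pool.Agent.Q214.PP.C

set_option autoImplicit false

/-!
# Plain paradoxes: flows from equidecompositions
-/

namespace Pool.Agent.Q214.PP

open MeasureTheory

/-- the positions of a token just after crossings, for the word `s` -/
def E (s : ℕ → ℕ) : ℕ → Equiv.Perm W
  | 0 => 1
  | t + 1 => pc * pa ^ s t * E s t

theorem E_congr {s s' : ℕ → ℕ} {m : ℕ} (h : ∀ t < m, s t = s' t) : E s m = E s' m := by
  induction m with
  | zero => rfl
  | succ m ih =>
    show pc * pa ^ s m * E s m = pc * pa ^ s' m * E s' m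
    rw [ih fun t ht => h t (by omega), h m (by omega)]

/-- the element of the group given by a word -/
def gam (s : ℕ → ℕ) (m : ℕ) : Equiv.Perm W := pa ^ s m * E s m

theorem pa_inv : (pa⁻¹ : Equiv.Perm W) = pa ^ 4 := by
  ext1 w
  rfl

theorem pc_inv : (pc⁻¹ : Equiv.Perm W) = pc := rfl

theorem pa_gam (s : ℕ → ℕ) (m : ℕ) (k : ℕ) : ∃ s' m', pa ^ k * gam s m = gam s' m' := by
  refine ⟨Function.update s m (k + s m), m, ?_⟩
  unfold gam
  rw [Function.update_self, pow_add, mul_assoc, E_congr (s := Function.update s m (k + s m)) (s' := s)]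
  intro t ht
  exact Function.update_of_ne (by omega) _ _

theorem pc_gam (s : ℕ → ℕ) (m : ℕ) : ∃ s' m', pc * gam s m = gam s' m' := by
  refine ⟨Function.update s (m + 1) 0, m + 1, ?_⟩
  unfold gam
  rw [Function.update_self, pow_zero, one_mul, E_congr (s := Function.update s (m + 1) 0) (s' := s)]
  · rfl
  · intro t ht
    exact Function.update_of_ne (by omega) _ _

/-- the homomorphism from the free group -/
noncomputable def hom : FreeGroup (Fin 2) →* Equiv.Perm W := FreeGroup.lift ![pa, pc]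

theorem hom_gam (g : FreeGroup (Fin 2)) : ∀ s m, ∃ s' m', hom g * gam s m = gam s' m' := by
  induction g using FreeGroup.induction_on with
  | C1 => exact fun s m => ⟨s, m, by rw [map_one, one_mul]⟩
  | of x =>
    intro s m
    fin_cases x
    · have h : hom (FreeGroup.of 0) = pa := by simp [hom]
      have h2 := pa_gam s m 1
      rw [pow_one] at h2
      show ∃ s' m', hom (FreeGroup.of 0) * gam s m = gam s' m'
      rwa [h]
    · have h : hom (FreeGroup.of 1) = pc := by simp [hom]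
      show ∃ s' m', hom (FreeGroup.of 1) * gam s m = gam s' m'
      rw [h]
      exact pc_gam s m
  | inv_of x _ =>
    intro s m
    fin_cases x
    · have h : hom (FreeGroup.of 0)⁻¹ = pa ^ 4 := by rw [map_inv, ← pa_inv]; simp [hom]
      show ∃ s' m', hom (FreeGroup.of 0)⁻¹ * gam s m = gam s' m'
      rw [h]
      exact pa_gam s m 4
    · have h : hom (FreeGroup.of 1)⁻¹ = pc := by rw [map_inv, ← pc_inv]; simp [hom]
      show ∃ s' m', hom (FreeGroup.of 1)⁻¹ * gam s m = gam s' m'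
      rw [h]
      exact pc_gam s m
  | mul x y hx hy =>
    intro s m
    obtain ⟨s', m', h⟩ := hy s m
    obtain ⟨s'', m'', h'⟩ := hx s' m'
    exact ⟨s'', m'', by rw [map_mul, mul_assoc, h, h']⟩

theorem hom_eq_gam (g : FreeGroup (Fin 2)) : ∃ s m, hom g = gam s m := by
  obtain ⟨s, m, h⟩ := hom_gam g (fun _ => 0) 0
  refine ⟨s, m, ?_⟩
  rw [← h]
  show hom g = hom g * (pa ^ 0 * 1)
  simp

theorem measurable_pa_pow (k : ℕ) : Measurable (pa ^ k : Equiv.Perm W) := by
  induction k with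
  | zero => exact measurable_id
  | succ k ih =>
    rw [pow_succ]
    exact ih.comp measurable_fa

theorem measurable_pa_pow_inv (k : ℕ) : Measurable ((pa ^ k)⁻¹ : Equiv.Perm W) := by
  rw [← inv_pow, pa_inv, ← pow_mul]
  exact measurable_pa_pow _

theorem measurable_E_inv (s : ℕ → ℕ) (t : ℕ) : Measurable ((E s t)⁻¹ : Equiv.Perm W) := by
  induction t with
  | zero => exact measurable_id
  | succ t ih =>
    have h : (E s (t + 1))⁻¹ = (E s t)⁻¹ * ((pa ^ s t)⁻¹ * pc⁻¹) := by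
      show (pc * pa ^ s t * E s t)⁻¹ = _
      group
    rw [h]
    exact ih.comp ((measurable_pa_pow_inv _).comp measurable_fc)

theorem measurable_E (s : ℕ → ℕ) (t : ℕ) : Measurable (E s t : Equiv.Perm W) := by
  induction t with
  | zero => exact measurable_id
  | succ t ih =>
    exact measurable_fc.comp ((measurable_pa_pow _).comp ih)

theorem measurable_gam (s : ℕ → ℕ) (m : ℕ) : Measurable (gam s m) :=
  (measurable_pa_pow _).comp (measurable_E s m)

theorem measurable_hom (g : FreeGroup (Fin 2)) : Measurable (hom g) := by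
  obtain ⟨s, m, h⟩ := hom_eq_gam g
  rw [h]
  exact measurable_gam s m

/-! ### Flows -/

open Classical in
/-- the truth value as an integer -/
noncomputable def ind (p : Prop) : ℤ := if p then 1 else 0

theorem ind_mono {p q : Prop} (h : p → q) : ind p ≤ ind q := by
  unfold ind
  split_ifs <;> simp_all

theorem ind_nonneg (p : Prop) : 0 ≤ ind p := by
  unfold ind
  split_ifs <;> simp

theorem ind_false {p : Prop} (h : ¬ p) : ind p = 0 := if_neg h

theorem ind_true {p : Prop} (h : p) : ind p = 1 := if_pos h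

theorem measurable_ind {X : Type} [MeasurableSpace X] {P : X → Prop} (h : MeasurableSet {x | P x}) :
    Measurable fun x => ind (P x) := by
  classical
  exact Measurable.ite h measurable_const measurable_const

variable {ι : Type} [Fintype ι] (B : ι → Set W) (m : ι → ℕ) (s : ι → ℕ → ℕ)

/-- the number of tokens passing at age at least `j` -/
noncomputable def H (j : ℕ) (w : W) : ℤ :=
  ∑ i, ∑ t ∈ Finset.range (m i + 1), ind (j ≤ t ∧ (E (s i) t)⁻¹ w ∈ B i)

/-- the balance -/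
noncomputable def K (j : ℕ) (w : W) : ℤ := H B m s j w - H B m s (j + 1) (fc w)

theorem measurable_H (hB : ∀ i, MeasurableSet (B i)) (j : ℕ) : Measurable (H B m s j) := by
  unfold H
  refine Finset.measurable_fun_sum _ fun i _ => Finset.measurable_fun_sum _ fun t _ => ?_
  apply measurable_ind
  exact (MeasurableSet.const _).inter (measurable_E_inv (s i) t (hB i))

theorem measurable_K (hB : ∀ i, MeasurableSet (B i)) (j : ℕ) : Measurable (K B m s j) :=
  (measurable_H B m s hB j).sub ((measurable_H B m s hB (j + 1)).comp measurable_fc)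

theorem H_nonneg (j : ℕ) (w : W) : 0 ≤ H B m s j w :=
  Finset.sum_nonneg fun _ _ => Finset.sum_nonneg fun _ _ => ind_nonneg _

theorem H_anti (j : ℕ) (w : W) : H B m s (j + 2) w ≤ H B m s j w :=
  Finset.sum_le_sum fun _ _ => Finset.sum_le_sum fun _ _ => ind_mono fun h => ⟨by omega, h.2⟩

theorem K_add (j : ℕ) (w : W) :
    K B m s j w + K B m s (j + 1) (fc w) = H B m s j w - H B m s (j + 2) w := by
  unfold K
  rw [fc_fc]
  ring

theorem K_zero (w : W) : ∑ i, ind (w ∈ B i) ≤ K B m s 0 w + K B m s 1 (fc w) := by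
  rw [K_add]
  unfold H
  rw [← Finset.sum_sub_distrib]
  refine Finset.sum_le_sum fun i _ => ?_
  rw [Finset.sum_range_succ', Finset.sum_range_succ']
  have h1 : ind (0 + 2 ≤ 0 ∧ (E (s i) 0)⁻¹ w ∈ B i) = 0 := ind_false (by omega)
  have h2 : ind (0 ≤ 0 ∧ (E (s i) 0)⁻¹ w ∈ B i) = ind (w ∈ B i) := by
    congr 1
    simp [E]
  have h3 : ∑ t ∈ Finset.range (m i), ind (0 + 2 ≤ t + 1 ∧ (E (s i) (t + 1))⁻¹ w ∈ B i) ≤
      ∑ t ∈ Finset.range (m i), ind (0 ≤ t + 1 ∧ (E (s i) (t + 1))⁻¹ w ∈ B i) :=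
    Finset.sum_le_sum fun t _ => ind_mono fun h => ⟨by omega, h.2⟩
  rw [h1, h2]
  omega

theorem K_large {N : ℕ} (hN : ∀ i, m i ≤ N) (w : W) : K B m s (N + 1) w ≤ 0 := by
  have h1 : H B m s (N + 1) w = 0 := by
    unfold H
    refine Finset.sum_eq_zero fun i _ => Finset.sum_eq_zero fun t ht => ind_false ?_
    have := Finset.mem_range.1 ht
    have := hN i
    omega
  have h2 := H_nonneg B m s (N + 1 + 1) (fc w)
  unfold K
  omega

/-- shifting along a node -/
theorem pow_inv_node {x : ZMod 5 → W} (hx : ∀ n, fa (x n) = x (n + 1)) (k : ℕ) (n : ZMod 5) :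
    (pa ^ k)⁻¹ (x n) = x (n - k) := by
  rw [Equiv.Perm.inv_eq_iff_eq]
  induction k with
  | zero => simp
  | succ k ih =>
    rw [pow_succ, Equiv.Perm.mul_apply, pa_apply, hx, ih]
    push_cast
    congr 2
    ring

theorem sum_shift {x : ZMod 5 → W} (hx : ∀ n, fa (x n) = x (n + 1)) (k : ℕ) (f : W → ℤ) :
    ∑ n, f ((pa ^ k)⁻¹ (x n)) = ∑ n, f (x n) := by
  simp only [pow_inv_node hx]
  exact Equiv.sum_comp (Equiv.subRight (k : ZMod 5)) fun n => f (x n)

theorem K_node {A : Set W} (hB1 : ∀ w, ∑ i, ind ((gam (s i) (m i))⁻¹ w ∈ B i) ≤ ind (w ∈ A))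
    (j : ℕ) {x : ZMod 5 → W} (hx : ∀ n, fa (x n) = x (n + 1)) :
    ∑ n, K B m s j (x n) ≤ ∑ n, ind (x n ∈ A) := by
  have h1 : ∀ i, ∑ n, (∑ t ∈ Finset.range (m i + 1), ind (j ≤ t ∧ (E (s i) t)⁻¹ (x n) ∈ B i) -
      ∑ t ∈ Finset.range (m i + 1), ind (j + 1 ≤ t ∧ (E (s i) t)⁻¹ (fc (x n)) ∈ B i)) ≤
      ∑ n, ind ((gam (s i) (m i))⁻¹ (x n) ∈ B i) := by
    intro i
    have e1 : ∀ n, ∑ t ∈ Finset.range (m i + 1), ind (j + 1 ≤ t ∧ (E (s i) t)⁻¹ (fc (x n)) ∈ B i) =
        ∑ t ∈ Finset.range (m i), ind (j ≤ t ∧ (E (s i) t)⁻¹ ((pa ^ s i t)⁻¹ (x n)) ∈ B i) := by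
      intro n
      rw [Finset.sum_range_succ', ind_false (p := j + 1 ≤ 0 ∧ _) (by omega), add_zero]
      refine Finset.sum_congr rfl fun t _ => ?_
      have e : (E (s i) (t + 1))⁻¹ (fc (x n)) = (E (s i) t)⁻¹ ((pa ^ s i t)⁻¹ (x n)) := by
        have h : (E (s i) (t + 1))⁻¹ = (E (s i) t)⁻¹ * ((pa ^ s i t)⁻¹ * pc⁻¹) := by
          show (pc * pa ^ s i t * E (s i) t)⁻¹ = _
          group
        rw [h, Equiv.Perm.mul_apply, Equiv.Perm.mul_apply]
        show (E (s i) t)⁻¹ ((pa ^ s i t)⁻¹ (fc (fc (x n)))) = _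
        rw [fc_fc]
      rw [e]
      congr 1
      simp
    simp only [e1, Finset.sum_range_succ, Finset.sum_sub_distrib, Finset.sum_add_distrib]
    rw [Finset.sum_comm, Finset.sum_comm (s := Finset.univ) (t := Finset.range (m i))
      (f := fun n t => ind (j ≤ t ∧ (E (s i) t)⁻¹ ((pa ^ s i t)⁻¹ (x n)) ∈ B i))]
    have e2 : ∀ t, ∑ n, ind (j ≤ t ∧ (E (s i) t)⁻¹ ((pa ^ s i t)⁻¹ (x n)) ∈ B i) =
        ∑ n, ind (j ≤ t ∧ (E (s i) t)⁻¹ (x n) ∈ B i) := fun t =>
      sum_shift hx (s i t) fun w => ind (j ≤ t ∧ (E (s i) t)⁻¹ w ∈ B i)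
    simp only [e2, add_sub_cancel_left]
    have e3 : ∑ n, ind ((gam (s i) (m i))⁻¹ (x n) ∈ B i) =
        ∑ n, ind ((E (s i) (m i))⁻¹ (x n) ∈ B i) := by
      rw [← sum_shift hx (s i (m i)) fun w => ind ((E (s i) (m i))⁻¹ w ∈ B i)]
      refine Finset.sum_congr rfl fun n _ => ?_
      unfold gam
      rw [mul_inv_rev, Equiv.Perm.mul_apply]
    rw [e3]
    exact Finset.sum_le_sum fun n _ => ind_mono fun h => h.2
  calc ∑ n, K B m s j (x n) = ∑ i, ∑ n, (∑ t ∈ Finset.range (m i + 1),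
        ind (j ≤ t ∧ (E (s i) t)⁻¹ (x n) ∈ B i) -
      ∑ t ∈ Finset.range (m i + 1), ind (j + 1 ≤ t ∧ (E (s i) t)⁻¹ (fc (x n)) ∈ B i)) := by
        rw [Finset.sum_comm]
        refine Finset.sum_congr rfl fun n _ => ?_
        unfold K H
        rw [Finset.sum_sub_distrib]
    _ ≤ ∑ i, ∑ n, ind ((gam (s i) (m i))⁻¹ (x n) ∈ B i) := Finset.sum_le_sum fun i _ => h1 i
    _ = ∑ n, ∑ i, ind ((gam (s i) (m i))⁻¹ (x n) ∈ B i) := Finset.sum_comm
    _ ≤ ∑ n, ind (x n ∈ A) := Finset.sum_le_sum fun n _ => hB1 _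

/-- **No doubling.** -/
theorem no_doubling {A : Set W} (hB : ∀ i, MeasurableSet (B i))
    (hA : ∀ x : ZMod 5 → W, (∀ n, x n ∈ Y) → (∀ n, fa (x n) = x (n + 1)) →
      ∑ n, ind (x n ∈ A) = 1)
    (hB0 : ∀ w ∈ A, 2 ≤ ∑ i, ind (w ∈ B i))
    (hB1 : ∀ w, ∑ i, ind ((gam (s i) (m i))⁻¹ w ∈ B i) ≤ ind (w ∈ A)) : False := by
  obtain ⟨N, hN⟩ : ∃ N, ∀ i, m i ≤ N :=
    ⟨Finset.univ.sup m, fun i => Finset.le_sup (f := m) (Finset.mem_univ i)⟩
  refine core (K B m s) (fun w => ∑ i, ind (w ∈ B i)) (measurable_K B m s hB)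
    (fun j x hY hx => (K_node B m s hB1 j hx).trans (hA x hY hx).le) (fun x hY hx => ?_)
    (fun j w _ => ?_) (fun w _ => K_zero B m s w) ⟨N, fun w _ => K_large B m s hN w⟩
  · have h1 := hA x hY hx
    have h2 : 2 * ∑ n, ind (x n ∈ A) ≤ ∑ n, ∑ i, ind (x n ∈ B i) := by
      rw [Finset.mul_sum]
      refine Finset.sum_le_sum fun n _ => ?_
      by_cases h : x n ∈ A
      · rw [ind_true h]
        exact hB0 _ h
      · rw [ind_false h]
        exact Finset.sum_nonneg fun i _ => ind_nonneg _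
    rw [h1] at h2
    exact h2
  · rw [K_add]
    have := H_anti B m s (j + 1) w
    have e : j + 1 + 2 = j + 3 := rfl
    show 0 ≤ H B m s (j + 1) w - H B m s (j + 1 + 2) w
    omega

end Pool.Agent.Q214.PP
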