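import Mathlib

set_option autoImplicit false

/-!
# Equidecomposability in `X × ℕ`
-/

namespace Pool.Agent.Q214.PP

open MeasureTheory

/-- `A` and `B` are equidecomposable for the action of `Γ` on `X`: there are finite partitions of
`A` and `B` into Borel pieces `P i` and `Q i` such that each piece `P i` lies in one level
`X × {j i}` and `Q i` is the translate of `P i` by a group element, placed in the level
`k i`. -/
def Equidec (Γ : Type) {X : Type} [Group Γ] [MulAction Γ X] [MeasurableSpace X]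
    (A B : Set (X × ℕ)) : Prop :=
  ∃ (r : ℕ) (P Q : Fin r → Set (X × ℕ)) (γ : Fin r → Γ) (j k : Fin r → ℕ),
    (∀ i, MeasurableSet (P i)) ∧ (∀ i, MeasurableSet (Q i)) ∧
    (∀ i i', i ≠ i' → Disjoint (P i) (P i')) ∧ (∀ i i', i ≠ i' → Disjoint (Q i) (Q i')) ∧
    (⋃ i, P i) = A ∧ (⋃ i, Q i) = B ∧
    (∀ i, P i ⊆ {p | p.2 = j i}) ∧
    ∀ i, Q i = {q | ∃ x, (x, j i) ∈ P i ∧ q = (γ i • x, k i)}

variable {Γ X : Type} [Group Γ] [MulAction Γ X] [MeasurableSpace X]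

/-- A more flexible form of equidecomposability. -/
def EQ (Γ : Type) {X : Type} [Group Γ] [MulAction Γ X] [MeasurableSpace X]
    (A B : Set (X × ℕ)) : Prop :=
  ∃ (ι : Type) (_ : Fintype ι) (R : ι → Set X) (γ : ι → Γ) (j k : ι → ℕ),
    (∀ i, MeasurableSet (R i)) ∧
    (∀ x n, (x, n) ∈ A ↔ ∃ i, x ∈ R i ∧ n = j i) ∧
    (∀ x i i', x ∈ R i → x ∈ R i' → j i = j i' → i = i') ∧
    (∀ x n, (x, n) ∈ B ↔ ∃ i, (γ i)⁻¹ • x ∈ R i ∧ n = k i) ∧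
    ∀ x i i', (γ i)⁻¹ • x ∈ R i → (γ i')⁻¹ • x ∈ R i' → k i = k i' → i = i'

theorem EQ.symm (hΓ : ∀ g : Γ, Measurable fun x : X => g • x) {A B : Set (X × ℕ)}
    (h : EQ Γ A B) : EQ Γ B A := by
  obtain ⟨ι, hι, R, γ, j, k, h0, h1, h2, h3, h4⟩ := h
  refine ⟨ι, hι, fun i => {x | (γ i)⁻¹ • x ∈ R i}, fun i => (γ i)⁻¹, k, j,
    fun i => hΓ (γ i)⁻¹ (h0 i), h3, h4, fun x n => ?_, fun x i i' hi hi' hj => ?_⟩
  · simp only [inv_inv, Set.mem_setOf_eq, inv_smul_smul]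
    exact h1 x n
  · simp only [inv_inv, Set.mem_setOf_eq, inv_smul_smul] at hi hi'
    exact h2 x i i' hi hi' hj

theorem EQ.trans (hΓ : ∀ g : Γ, Measurable fun x : X => g • x) {A B C : Set (X × ℕ)}
    (h : EQ Γ A B) (h' : EQ Γ B C) : EQ Γ A C := by
  obtain ⟨ι, hι, R, γ, j, k, h0, h1, h2, h3, h4⟩ := h
  obtain ⟨ι', hι', R', γ', j', k', h0', h1', h2', h3', h4'⟩ := h'
  refine ⟨ι × ι', inferInstance, fun i => {x | (x ∈ R i.1 ∧ γ i.1 • x ∈ R' i.2) ∧ k i.1 = j' i.2},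
    fun i => γ' i.2 * γ i.1, fun i => j i.1, fun i => k' i.2, fun i => ?_, fun x n => ?_,
    fun x i i' hi hi' hj => ?_, fun x n => ?_, fun x i i' hi hi' hk => ?_⟩
  · exact ((h0 i.1).inter (hΓ (γ i.1) (h0' i.2))).inter (MeasurableSet.const _)
  · constructor
    · intro hx
      obtain ⟨i, hi, hn⟩ := (h1 x n).1 hx
      have hB : (γ i • x, k i) ∈ B := (h3 _ _).2 ⟨i, by rwa [inv_smul_smul], rfl⟩
      obtain ⟨i', hi', hn'⟩ := (h1' _ _).1 hB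
      exact ⟨(i, i'), ⟨⟨hi, hi'⟩, hn'⟩, hn⟩
    · rintro ⟨⟨i, i'⟩, ⟨⟨hi, hi'⟩, hn'⟩, hn⟩
      exact (h1 x n).2 ⟨i, hi, hn⟩
  · obtain ⟨i1, i2⟩ := i
    obtain ⟨i1', i2'⟩ := i'
    obtain ⟨⟨a1, a2⟩, a3⟩ := hi
    obtain ⟨⟨b1, b2⟩, b3⟩ := hi'
    obtain rfl : i1 = i1' := h2 x _ _ a1 b1 hj
    obtain rfl : i2 = i2' := h2' _ _ _ a2 b2 (a3.symm.trans b3)
    rfl
  · constructor
    · intro hx
      obtain ⟨i', hi', hn'⟩ := (h3' x n).1 hx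
      have hB : ((γ' i')⁻¹ • x, j' i') ∈ B := (h1' _ _).2 ⟨i', hi', rfl⟩
      obtain ⟨i, hi, hn⟩ := (h3 _ _).1 hB
      refine ⟨(i, i'), ⟨⟨?_, ?_⟩, hn.symm⟩, hn'⟩
      · show (γ' i' * γ i)⁻¹ • x ∈ R i
        rw [mul_inv_rev, mul_smul]
        exact hi
      · show γ i • (γ' i' * γ i)⁻¹ • x ∈ R' i'
        rw [mul_inv_rev, mul_smul, smul_inv_smul]
        exact hi'
    · rintro ⟨⟨i, i'⟩, ⟨⟨hi, hi'⟩, hn'⟩, hn⟩
      refine (h3' x n).2 ⟨i', ?_, hn⟩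
      have hi2 : γ i • (γ' i' * γ i)⁻¹ • x ∈ R' i' := hi'
      rwa [mul_inv_rev, mul_smul, smul_inv_smul] at hi2
  · obtain ⟨i1, i2⟩ := i
    obtain ⟨i1', i2'⟩ := i'
    obtain ⟨⟨a1, a2⟩, a3⟩ := hi
    obtain ⟨⟨b1, b2⟩, b3⟩ := hi'
    have a2' : γ i1 • (γ' i2 * γ i1)⁻¹ • x ∈ R' i2 := a2
    have b2' : γ i1' • (γ' i2' * γ i1')⁻¹ • x ∈ R' i2' := b2
    have a1' : (γ' i2 * γ i1)⁻¹ • x ∈ R i1 := a1
    have b1' : (γ' i2' * γ i1')⁻¹ • x ∈ R i1' := b1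
    rw [mul_inv_rev, mul_smul, smul_inv_smul] at a2' b2'
    rw [mul_inv_rev, mul_smul] at a1' b1'
    obtain rfl : i2 = i2' := h4' x _ _ a2' b2' hk
    obtain rfl : i1 = i1' := h4 _ _ _ a1' b1' (a3.trans b3.symm)
    rfl

theorem EQ.equidec (hΓ : ∀ g : Γ, Measurable fun x : X => g • x) {A B : Set (X × ℕ)}
    (h : EQ Γ A B) : Equidec Γ A B := by
  obtain ⟨ι, hι, R, γ, j, k, h0, h1, h2, h3, h4⟩ := h
  let e := Fintype.equivFin ι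
  have hQ : ∀ i, {q : X × ℕ | (γ i)⁻¹ • q.1 ∈ R i ∧ q.2 = k i} =
      {q | ∃ x, (x, j i) ∈ {p : X × ℕ | p.1 ∈ R i ∧ p.2 = j i} ∧ q = (γ i • x, k i)} := by
    intro i
    ext ⟨x, n⟩
    constructor
    · rintro ⟨hx, hn⟩
      refine ⟨(γ i)⁻¹ • x, ⟨hx, rfl⟩, ?_⟩
      rw [smul_inv_smul]
      exact Prod.ext rfl hn
    · rintro ⟨y, ⟨hy, -⟩, hq⟩
      obtain ⟨rfl, rfl⟩ := Prod.ext_iff.1 hq
      exact ⟨by
        show (γ i)⁻¹ • γ i • y ∈ R i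
        rwa [inv_smul_smul], rfl⟩
  refine ⟨Fintype.card ι, fun i => {p | p.1 ∈ R (e.symm i) ∧ p.2 = j (e.symm i)},
    fun i => {q | (γ (e.symm i))⁻¹ • q.1 ∈ R (e.symm i) ∧ q.2 = k (e.symm i)},
    fun i => γ (e.symm i), fun i => j (e.symm i), fun i => k (e.symm i), fun i => ?_, fun i => ?_,
    fun i i' hi => ?_, fun i i' hi => ?_, ?_, ?_, fun i p hp => hp.2, fun i => hQ (e.symm i)⟩
  · exact (measurable_fst (h0 _)).inter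
      (measurable_snd (MeasurableSet.of_discrete (s := {n : ℕ | n = j (e.symm i)})))
  · exact (((hΓ (γ (e.symm i))⁻¹).comp measurable_fst) (h0 _)).inter
      (measurable_snd (MeasurableSet.of_discrete (s := {n : ℕ | n = k (e.symm i)})))
  · rw [Set.disjoint_left]
    rintro ⟨x, n⟩ ⟨a1, a2⟩ ⟨b1, b2⟩
    exact hi (e.symm.injective (h2 x _ _ a1 b1 (a2.symm.trans b2)))
  · rw [Set.disjoint_left]
    rintro ⟨x, n⟩ ⟨a1, a2⟩ ⟨b1, b2⟩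
    exact hi (e.symm.injective (h4 x _ _ a1 b1 (a2.symm.trans b2)))
  · ext ⟨x, n⟩
    rw [Set.mem_iUnion, h1]
    exact ⟨fun ⟨i, hi⟩ => ⟨e.symm i, hi⟩, fun ⟨i, hi⟩ => ⟨e i, by simpa using hi⟩⟩
  · ext ⟨x, n⟩
    rw [Set.mem_iUnion, h3]
    exact ⟨fun ⟨i, hi⟩ => ⟨e.symm i, hi⟩, fun ⟨i, hi⟩ => ⟨e i, by simpa using hi⟩⟩

end Pool.Agent.Q214.PP
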