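import Pool.Agent.Q214.PP.D
import Pool.Agent.Q214.PP.EQ

set_option autoImplicit false

/-!
# Plain paradoxes: the action
-/

namespace Pool.Agent.Q214.PP

open MeasureTheory

theorem pa_pow_mem {w : W} (h : w ∈ Y) (k : ℕ) : (pa ^ k) w ∈ Y := by
  induction k generalizing w with
  | zero => exact h
  | succ k ih =>
    rw [pow_succ, Equiv.Perm.mul_apply]
    exact ih (fa_mem h)

theorem E_mem {w : W} (h : w ∈ Y) (s : ℕ → ℕ) (t : ℕ) : E s t w ∈ Y := by
  induction t with
  | zero => exact h
  | succ t ih => exact fc_mem (pa_pow_mem ih _)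

theorem hom_mem (g : FreeGroup (Fin 2)) {w : W} (h : w ∈ Y) : hom g w ∈ Y := by
  obtain ⟨s, m, hg⟩ := hom_eq_gam g
  rw [hg]
  exact pa_pow_mem (E_mem h s m) _

/-- the standard Borel space -/
def X : Type := ↥Y

instance : MeasurableSpace X := inferInstanceAs (MeasurableSpace ↥Y)

instance : StandardBorelSpace X := measurableSet_Y.standardBorel

/-- the inclusion -/
def val (x : X) : W := x.1

theorem measurable_val : Measurable val := measurable_subtype_coe

theorem val_mem (x : X) : val x ∈ Y := x.2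

theorem val_injective : Function.Injective val := Subtype.val_injective

/-- the action -/
noncomputable instance : MulAction (FreeGroup (Fin 2)) X where
  smul g x := ⟨hom g x.1, hom_mem g x.2⟩
  one_smul x := by
    apply Subtype.ext
    show hom 1 x.1 = x.1
    rw [map_one]
    rfl
  mul_smul g h x := by
    apply Subtype.ext
    show hom (g * h) x.1 = hom g (hom h x.1)
    rw [map_mul]
    rfl

theorem val_smul (g : FreeGroup (Fin 2)) (x : X) : val (g • x) = hom g (val x) := rfl

theorem measurable_smul' (g : FreeGroup (Fin 2)) : Measurable fun x : X => g • x :=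
  Measurable.subtype_mk ((measurable_hom g).comp measurable_subtype_coe)

/-- the points of the node of `w` -/
def nodeOf (w : W) (n : ZMod 5) : W := (pa ^ n.val) w

theorem fa_nodeOf (w : W) (n : ZMod 5) : fa (nodeOf w n) = nodeOf w (n + 1) := by
  fin_cases n
  · rfl
  · rfl
  · rfl
  · rfl
  · exact fa5 w

theorem nodeOf_zero (w : W) : nodeOf w 0 = w := rfl

theorem node_unique {x y : ZMod 5 → W} (hx : ∀ n, fa (x n) = x (n + 1))
    (hy : ∀ n, fa (y n) = y (n + 1)) (h0 : x 0 = y 0) : x = y := by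
  have h1 : ∀ k : ℕ, x k = y k := by
    intro k
    induction k with
    | zero => simpa using h0
    | succ k ih =>
      push_cast
      rw [← hx, ← hy, ih]
  funext n
  have := h1 n.val
  rwa [ZMod.natCast_zmod_val] at this

theorem nodeOf_node {x : ZMod 5 → W} (hx : ∀ n, fa (x n) = x (n + 1)) (n m : ZMod 5) :
    nodeOf (x n) m = x (n + m) := by
  have h := node_unique (x := nodeOf (x n)) (y := fun m => x (n + m)) (fa_nodeOf _)
    (fun m => by rw [hx, add_assoc]) (by rw [nodeOf_zero, add_zero])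
  exact congrFun h m

theorem nodeOf_mem {w : W} (h : w ∈ Y) (n : ZMod 5) : nodeOf w n ∈ Y := pa_pow_mem h _

theorem measurable_nodeOf (n : ZMod 5) : Measurable fun w => nodeOf w n := measurable_pa_pow _

theorem nd_of_mem {w : W} (h : w ∈ Y) :
    Nd5 (nodeOf w 0).1 (nodeOf w 1).1 (nodeOf w 2).1 (nodeOf w 3).1 (nodeOf w 4).1 :=
  ((leg_iff w.1 w.2.1).1 h.1).1

theorem num_injective {w : W} (h : w ∈ Y) : Function.Injective fun n => (nodeOf w n).1.1 := by
  have h1 := (nd_of_mem h).1
  intro i j hij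
  have hij' : (nodeOf w i).1.1 = (nodeOf w j).1.1 := hij
  obtain ⟨a01, a02, a03, a04, a12, a13, a14, a23, a24, a34⟩ := h1
  fin_cases i <;> fin_cases j <;> first | rfl | exact absurd hij' (by assumption) |
    exact absurd hij'.symm (by assumption)

/-- the base points: those of least number in their node -/
def A : Set W := {w | w ∈ Y ∧ ∀ n, w.1.1 ≤ (nodeOf w n).1.1}

theorem measurableSet_A : MeasurableSet A := by
  refine measurableSet_Y.inter (?_ : MeasurableSet {w : W | ∀ n, w.1.1 ≤ (nodeOf w n).1.1})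
  have h : {w : W | ∀ n, w.1.1 ≤ (nodeOf w n).1.1} = ⋂ n, {w : W | w.1.1 ≤ (nodeOf w n).1.1} := by
    ext w
    simp
  rw [h]
  refine MeasurableSet.iInter fun n => measurableSet_le (measurable_fst.comp measurable_fst)
    ((measurable_fst.comp measurable_fst).comp (measurable_nodeOf n))

theorem exists_unique_A {x : ZMod 5 → W} (hY : ∀ n, x n ∈ Y) (hx : ∀ n, fa (x n) = x (n + 1)) :
    ∃! n, x n ∈ A := by
  obtain ⟨n, -, hn⟩ := Finset.exists_min_image Finset.univ (fun n => (x n).1.1)
    ⟨0, Finset.mem_univ _⟩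
  have hinj : Function.Injective fun n => (x n).1.1 := by
    have h := num_injective (hY 0)
    have e : (fun n => (nodeOf (x 0) n).1.1) = fun n => (x n).1.1 := by
      funext n
      rw [nodeOf_node hx, zero_add]
    rwa [e] at h
  refine ⟨n, ⟨hY n, fun m => ?_⟩, fun m hm => ?_⟩
  · rw [nodeOf_node hx]
    exact hn _ (Finset.mem_univ _)
  · apply hinj
    have h1 := hn m (Finset.mem_univ _)
    have h2 := hm.2 (n - m)
    rw [nodeOf_node hx, add_sub_cancel] at h2
    exact le_antisymm h2 h1

theorem sum_A {x : ZMod 5 → W} (hY : ∀ n, x n ∈ Y) (hx : ∀ n, fa (x n) = x (n + 1)) :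
    ∑ n, ind (x n ∈ A) = 1 := by
  obtain ⟨n, hn, hu⟩ := exists_unique_A hY hx
  rw [Finset.sum_eq_single n (fun m _ hm => ind_false fun h => hm (hu m h))
    (fun h => absurd (Finset.mem_univ _) h), ind_true hn]

/-- the base set in `X` -/
def AX : Set X := {x | val x ∈ A}

theorem measurableSet_AX : MeasurableSet AX := measurable_val measurableSet_A

/-- `n` copies of a set -/
def copies {Z : Type} (n : ℕ) (S : Set Z) : Set (Z × ℕ) := {p | p.1 ∈ S ∧ p.2 < n}

/-- **Two copies of the base set do not embed into one copy.** -/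
theorem not_double (C : Set (X × ℕ)) (hC : C ⊆ copies 1 AX)
    (h : Equidec (FreeGroup (Fin 2)) (copies 2 AX) C) : False := by
  obtain ⟨r, P, Q, γ, j, k, hP, hQ, hPd, hQd, hPA, hQC, hPj, hQP⟩ := h
  choose s m hsm using fun i => hom_eq_gam (γ i)
  refine no_doubling (fun i => val '' {x | (x, j i) ∈ P i}) m s (A := A) (fun i => ?_)
    (fun x hY hx => sum_A hY hx) (fun w hw => ?_) fun w => ?_
  · exact measurableSet_Y.subtype_image
      ((measurable_id.prodMk measurable_const : Measurable fun x : X => (x, j i)) (hP i))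
  · let x : X := ⟨w, hw.1⟩
    have hx : x ∈ AX := hw
    have h0 : (x, 0) ∈ copies 2 AX := ⟨hx, by norm_num⟩
    have h1 : (x, 1) ∈ copies 2 AX := ⟨hx, by norm_num⟩
    rw [← hPA, Set.mem_iUnion] at h0 h1
    obtain ⟨i0, hi0⟩ := h0
    obtain ⟨i1, hi1⟩ := h1
    have e0 : 0 = j i0 := hPj i0 hi0
    have e1 : 1 = j i1 := hPj i1 hi1
    have hne : i0 ≠ i1 := by
      rintro rfl
      omega
    have m0 : w ∈ val '' {x | (x, j i0) ∈ P i0} := ⟨x, by rw [← e0]; exact hi0, rfl⟩
    have m1 : w ∈ val '' {x | (x, j i1) ∈ P i1} := ⟨x, by rw [← e1]; exact hi1, rfl⟩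
    calc (2 : ℤ) = ∑ i ∈ {i0, i1}, ind (w ∈ val '' {x | (x, j i) ∈ P i}) := by
          rw [Finset.sum_pair hne, ind_true m0, ind_true m1]
          norm_num
      _ ≤ _ := Finset.sum_le_sum_of_subset_of_nonneg (Finset.subset_univ _)
          fun i _ _ => ind_nonneg _
  · have key : ∀ i, (gam (s i) (m i))⁻¹ w ∈ val '' {x | (x, j i) ∈ P i} →
        ∃ y : X, val y = w ∧ (y, k i) ∈ Q i := by
      rintro i ⟨x, hx, hw⟩
      refine ⟨γ i • x, ?_, ?_⟩
      · rw [val_smul, hsm, hw]
        exact Equiv.apply_symm_apply _ _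
      · rw [hQP]
        exact ⟨x, hx, rfl⟩
    have keyA : ∀ (y : X) i, (y, k i) ∈ Q i → y ∈ AX ∧ k i = 0 := by
      intro y i hy
      have h1 : (y, k i) ∈ C := by
        rw [← hQC]
        exact Set.mem_iUnion.2 ⟨i, hy⟩
      have h2 := hC h1
      exact ⟨h2.1, Nat.lt_one_iff.1 h2.2⟩
    by_cases hex : ∃ i, (gam (s i) (m i))⁻¹ w ∈ val '' {x | (x, j i) ∈ P i}
    · obtain ⟨i, hi⟩ := hex
      obtain ⟨y, hy, hyQ⟩ := key i hi
      obtain ⟨hyA, hk⟩ := keyA y i hyQ
      have hwA : w ∈ A := by
        rw [← hy]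
        exact hyA
      rw [Finset.sum_eq_single i, ind_true hi, ind_true hwA]
      · intro i' _ hne
        apply ind_false
        intro hi'
        obtain ⟨y', hy', hyQ'⟩ := key i' hi'
        obtain ⟨-, hk'⟩ := keyA y' i' hyQ'
        obtain rfl : y' = y := val_injective (hy'.trans hy.symm)
        rw [hk] at hyQ
        rw [hk'] at hyQ'
        exact Set.disjoint_left.1 (hQd i' i hne) hyQ' hyQ
      · exact fun h => absurd (Finset.mem_univ _) h
    · push Not at hex
      rw [Finset.sum_eq_zero fun i _ => ind_false (hex i)]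
      exact ind_nonneg _

/-! ### The equality of three and two copies -/

/-- the element of the free group moving along the node -/
def gaF : FreeGroup (Fin 2) := FreeGroup.of 0

/-- the element of the free group crossing to the other side -/
def gcF : FreeGroup (Fin 2) := FreeGroup.of 1

theorem hom_ga : hom gaF = pa := by simp [hom, gaF]

theorem hom_gc : hom gcF = pc := by simp [hom, gcF]

/-- the points of colour `ε` -/
def Col (ε : Bool) : Set X := {x | (val x).1.2 = ε}

theorem measurableSet_Col (ε : Bool) : MeasurableSet (Col ε) :=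
  (measurable_snd.comp (measurable_fst.comp measurable_val))
    (MeasurableSet.of_discrete (s := {b : Bool | b = ε}))

/-- the colour pattern of the node of a point -/
def pat (x : X) : ZMod 5 → Bool := fun n => (nodeOf (val x) n).1.2

theorem measurable_pat : Measurable pat :=
  measurable_pi_lambda _ fun n =>
    measurable_snd.comp (measurable_fst.comp ((measurable_nodeOf n).comp measurable_val))

theorem card_pat (q : ZMod 5 → Bool)
    (h : (q 0).toNat + (q 1).toNat + (q 2).toNat + (q 3).toNat + (q 4).toNat = 3) :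
    Fintype.card {n // q n = true} = 3 ∧ Fintype.card {n // q n = false} = 2 := by
  revert h
  have key : ∀ q : Fin 5 → Bool, (q 0).toNat + (q 1).toNat + (q 2).toNat + (q 3).toNat +
      (q 4).toNat = 3 →
      Fintype.card {n // q n = true} = 3 ∧ Fintype.card {n // q n = false} = 2 := by decide
  exact key q

theorem card_pat_true (x : X) : Fintype.card {n // pat x n = true} = 3 :=
  (card_pat (pat x) (nd_of_mem (val_mem x)).2).1

theorem card_pat_false (x : X) : Fintype.card {n // pat x n = false} = 2 :=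
  (card_pat (pat x) (nd_of_mem (val_mem x)).2).2

/-- the points of colour `ε` are equidecomposable with copies of the base set -/
theorem eq_colour (ε : Bool) (N : ℕ) (hN : ∀ x : X, Fintype.card {n // pat x n = ε} = N) :
    EQ (FreeGroup (Fin 2)) (copies N AX) (copies 1 (Col ε)) := by
  classical
  let ι : Type := {q : ZMod 5 → Bool // Fintype.card {n // q n = ε} = N} × Fin N
  let e : ∀ q : {q : ZMod 5 → Bool // Fintype.card {n // q n = ε} = N}, {n // q.1 n = ε} ≃ Fin N :=
    fun q => Fintype.equivFinOfCardEq q.2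
  let ν : ι → ZMod 5 := fun i => ((e i.1).symm i.2).1
  have hν : ∀ i : ι, i.1.1 (ν i) = ε := fun i => ((e i.1).symm i.2).2
  let γ : ι → FreeGroup (Fin 2) := fun i => gaF ^ (ν i).val
  have hγ : ∀ (i : ι) (x : X), val (γ i • x) = nodeOf (val x) (ν i) := by
    intro i x
    rw [val_smul]
    show hom (gaF ^ (ν i).val) (val x) = _
    rw [map_pow, hom_ga]
    rfl
  have hγ' : ∀ (i : ι) (x : X), val ((γ i)⁻¹ • x) = nodeOf (val x) (-(ν i)) := by
    intro i x
    have h1 := hγ i ((γ i)⁻¹ • x)
    rw [smul_inv_smul] at h1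
    have h2 := nodeOf_node (fa_nodeOf (val ((γ i)⁻¹ • x))) (ν i) (-(ν i))
    rw [← h1, add_neg_cancel, nodeOf_zero] at h2
    exact h2.symm
  let R : ι → Set X := fun i => {x | x ∈ AX ∧ pat x = i.1.1}
  refine ⟨ι, inferInstance, R, γ, fun i => i.2, fun _ => 0, fun i => ?_, fun x n => ?_,
    fun x i i' hi hi' hj => ?_, fun x n => ?_, fun x i i' hi hi' _ => ?_⟩
  · exact measurableSet_AX.inter (measurable_pat (MeasurableSet.of_discrete (s := {q | q = i.1.1})))
  · constructor
    · rintro ⟨hx, hn⟩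
      exact ⟨(⟨pat x, hN x⟩, ⟨n, hn⟩), ⟨hx, rfl⟩, rfl⟩
    · rintro ⟨i, ⟨hx, -⟩, hn⟩
      refine ⟨hx, ?_⟩
      show n < N
      rw [hn]
      exact i.2.2
  · obtain ⟨i1, i2⟩ := i
    obtain ⟨i1', i2'⟩ := i'
    obtain rfl : i1 = i1' := Subtype.ext (hi.2.symm.trans hi'.2)
    obtain rfl : i2 = i2' := Fin.ext hj
    rfl
  · have hnode := fa_nodeOf (val x)
    constructor
    · rintro ⟨hx, hn⟩
      obtain ⟨n0, hn0, -⟩ := exists_unique_A (nodeOf_mem (val_mem x)) hnode
      let x' : X := ⟨nodeOf (val x) n0, nodeOf_mem (val_mem x) n0⟩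
      have hx' : x' ∈ AX := hn0
      have hp : pat x' (-n0) = ε := by
        show (nodeOf (nodeOf (val x) n0) (-n0)).1.2 = ε
        rw [nodeOf_node hnode, add_neg_cancel, nodeOf_zero]
        exact hx
      let i : ι := (⟨pat x', hN x'⟩, e ⟨pat x', hN x'⟩ ⟨-n0, hp⟩)
      have hi : ν i = -n0 := by
        show ((e ⟨pat x', hN x'⟩).symm (e ⟨pat x', hN x'⟩ ⟨-n0, hp⟩)).1 = -n0
        rw [Equiv.symm_apply_apply]
      have hxx : (γ i)⁻¹ • x = x' := by
        apply val_injective
        rw [hγ', hi, neg_neg]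
        rfl
      refine ⟨i, ?_, Nat.lt_one_iff.1 hn⟩
      rw [hxx]
      exact ⟨hx', rfl⟩
    · rintro ⟨i, ⟨hx, hp⟩, hn⟩
      refine ⟨?_, by rw [hn]; exact Nat.zero_lt_one⟩
      show (val x).1.2 = ε
      have h1 : pat ((γ i)⁻¹ • x) (ν i) = ε := by
        rw [hp]
        exact hν i
      have h2 : (nodeOf (val ((γ i)⁻¹ • x)) (ν i)).1.2 = ε := h1
      rw [hγ', nodeOf_node hnode, neg_add_cancel, nodeOf_zero] at h2
      exact h2
  · obtain ⟨n0, hn0, hu⟩ := exists_unique_A (nodeOf_mem (val_mem x)) (fa_nodeOf (val x))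
    have h1 : nodeOf (val x) (-(ν i)) ∈ A := by
      rw [← hγ']
      exact hi.1
    have h2 : nodeOf (val x) (-(ν i')) ∈ A := by
      rw [← hγ']
      exact hi'.1
    have h3 : ν i = ν i' := neg_injective ((hu _ h1).trans (hu _ h2).symm)
    have h4 : (γ i)⁻¹ • x = (γ i')⁻¹ • x := by
      apply val_injective
      rw [hγ', hγ', h3]
    obtain ⟨i1, i2⟩ := i
    obtain ⟨i1', i2'⟩ := i'
    obtain rfl : i1 = i1' := Subtype.ext (by rw [← hi.2, ← hi'.2, h4])
    have h5 : (e i1).symm i2 = (e i1).symm i2' := Subtype.ext h3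
    rw [(e i1).symm.injective h5]

theorem eq_cross : EQ (FreeGroup (Fin 2)) (copies 1 (Col true)) (copies 1 (Col false)) := by
  have hc : ∀ x : X, (val (gcF⁻¹ • x)).1.2 = !(val x).1.2 := by
    intro x
    have h : val (gcF • (gcF⁻¹ • x)) = fc (val (gcF⁻¹ • x)) := by
      rw [val_smul, hom_gc]
      rfl
    rw [smul_inv_smul] at h
    have h2 : (val x).1.2 = !(val (gcF⁻¹ • x)).1.2 := by
      conv_lhs => rw [h]
      rfl
    rw [h2, Bool.not_not]
  refine ⟨Unit, inferInstance, fun _ => Col true, fun _ => gcF, fun _ => 0, fun _ => 0,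
    fun _ => measurableSet_Col true, fun x n => ?_, fun x i i' _ _ _ => rfl, fun x n => ?_,
    fun x i i' _ _ _ => rfl⟩
  · constructor
    · rintro ⟨hx, hn⟩
      exact ⟨(), hx, Nat.lt_one_iff.1 hn⟩
    · rintro ⟨_, hx, hn⟩
      exact ⟨hx, by rw [hn]; exact Nat.zero_lt_one⟩
  · constructor
    · rintro ⟨hx, hn⟩
      refine ⟨(), ?_, Nat.lt_one_iff.1 hn⟩
      show (val (gcF⁻¹ • x)).1.2 = true
      rw [hc, show (val x).1.2 = false from hx]
      rfl
    · rintro ⟨_, hx, hn⟩
      refine ⟨?_, by rw [hn]; exact Nat.zero_lt_one⟩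
      have h1 : (val (gcF⁻¹ • x)).1.2 = true := hx
      rw [hc] at h1
      show (val x).1.2 = false
      simpa using h1

theorem eq_three_two : EQ (FreeGroup (Fin 2)) (copies 3 AX) (copies 2 AX) :=
  ((eq_colour true 3 card_pat_true).trans measurable_smul' eq_cross).trans measurable_smul'
    ((eq_colour false 2 card_pat_false).symm measurable_smul')

end Pool.Agent.Q214.PP
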