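import Pool.Agent.Q214.PP.EQ

set_option autoImplicit false

/-!
# The Borel type semigroup of an action
-/

namespace Pool.Agent.Q214.PP

open MeasureTheory

section general

variable {Γ X : Type} [Group Γ] [MulAction Γ X] [MeasurableSpace X]

theorem Equidec.eq {A B : Set (X × ℕ)}
    (h : Equidec Γ A B) : EQ Γ A B := by
  obtain ⟨r, P, Q, γ, j, k, hP, hQ, hPd, hQd, hPA, hQB, hPj, hQP⟩ := h
  have hq : ∀ i x, (x, k i) ∈ Q i ↔ ((γ i)⁻¹ • x, j i) ∈ P i := by
    intro i x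
    rw [hQP]
    constructor
    · rintro ⟨y, hy, he⟩
      have hx : x = γ i • y := (Prod.ext_iff.1 he).1
      rw [hx, inv_smul_smul]
      exact hy
    · intro h
      exact ⟨_, h, by rw [smul_inv_smul]⟩
  refine ⟨Fin r, inferInstance, fun i => {x | (x, j i) ∈ P i}, γ, j, k, fun i => ?_, fun x n => ?_,
    fun x i i' hi hi' hj => ?_, fun x n => ?_, fun x i i' hi hi' hk => ?_⟩
  · exact (measurable_id.prodMk measurable_const : Measurable fun x : X => (x, j i)) (hP i)
  · rw [← hPA, Set.mem_iUnion]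
    constructor
    · rintro ⟨i, hi⟩
      have h1 : n = j i := hPj i hi
      refine ⟨i, ?_, h1⟩
      show (x, j i) ∈ P i
      rw [← h1]
      exact hi
    · rintro ⟨i, hi, rfl⟩
      exact ⟨i, hi⟩
  · by_contra hne
    have h1 : (x, j i) ∈ P i' := by
      rw [hj]
      exact hi'
    exact Set.disjoint_left.1 (hPd i i' hne) hi h1
  · rw [← hQB, Set.mem_iUnion]
    constructor
    · rintro ⟨i, hi⟩
      have h1 : n = k i := by
        have h2 := hi
        rw [hQP] at h2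
        obtain ⟨y, -, hy⟩ := h2
        exact (Prod.ext_iff.1 hy).2
      refine ⟨i, ?_, h1⟩
      rw [h1] at hi
      exact (hq i x).1 hi
    · rintro ⟨i, hi, rfl⟩
      exact ⟨i, (hq i x).2 hi⟩
  · by_contra hne
    have h1 := (hq i x).2 hi
    have h2 := (hq i' x).2 hi'
    rw [← hk] at h2
    exact Set.disjoint_left.1 (hQd i i' hne) h1 h2

theorem EQ.union {A B A' B' : Set (X × ℕ)} (h : EQ Γ A A') (h' : EQ Γ B B')
    (hd : Disjoint A B) (hd' : Disjoint A' B') : EQ Γ (A ∪ B) (A' ∪ B') := by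
  obtain ⟨ι, hι, R, γ, j, k, h0, h1, h2, h3, h4⟩ := h
  obtain ⟨ι', hι', R', γ', j', k', h0', h1', h2', h3', h4'⟩ := h'
  refine ⟨ι ⊕ ι', inferInstance, Sum.elim R R', Sum.elim γ γ', Sum.elim j j', Sum.elim k k',
    fun i => ?_, fun x n => ?_, fun x i i' hi hi' hj => ?_, fun x n => ?_,
    fun x i i' hi hi' hk => ?_⟩
  · cases i
    · exact h0 _
    · exact h0' _
  · rw [Set.mem_union, h1, h1', Sum.exists]
    rfl
  · cases i with
    | inl i =>
      cases i' with
      | inl i' => rw [h2 x i i' hi hi' hj]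
      | inr i' =>
        exfalso
        have a : (x, j i) ∈ A := (h1 _ _).2 ⟨i, hi, rfl⟩
        have b : (x, j i) ∈ B := (h1' _ _).2 ⟨i', hi', hj⟩
        exact Set.disjoint_left.1 hd a b
    | inr i =>
      cases i' with
      | inl i' =>
        exfalso
        have a : (x, j' i) ∈ B := (h1' _ _).2 ⟨i, hi, rfl⟩
        have b : (x, j' i) ∈ A := (h1 _ _).2 ⟨i', hi', hj⟩
        exact Set.disjoint_left.1 hd b a
      | inr i' => rw [h2' x i i' hi hi' hj]
  · rw [Set.mem_union, h3, h3', Sum.exists]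
    rfl
  · cases i with
    | inl i =>
      cases i' with
      | inl i' => rw [h4 x i i' hi hi' hk]
      | inr i' =>
        exfalso
        have a : (x, k i) ∈ A' := (h3 _ _).2 ⟨i, hi, rfl⟩
        have b : (x, k i) ∈ B' := (h3' _ _).2 ⟨i', hi', hk⟩
        exact Set.disjoint_left.1 hd' a b
    | inr i =>
      cases i' with
      | inl i' =>
        exfalso
        have a : (x, k' i) ∈ B' := (h3' _ _).2 ⟨i, hi, rfl⟩
        have b : (x, k' i) ∈ A' := (h3 _ _).2 ⟨i', hi', hk⟩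
        exact Set.disjoint_left.1 hd' b a
      | inr i' => rw [h4' x i i' hi hi' hk]

theorem EQ.restrict {A B A0 : Set (X × ℕ)}
    (h : EQ Γ A B) (hA0 : MeasurableSet A0) (hs : A0 ⊆ A) : ∃ B0 ⊆ B, EQ Γ A0 B0 := by
  obtain ⟨ι, hι, R, γ, j, k, h0, h1, h2, h3, h4⟩ := h
  refine ⟨{p | ∃ i, ((γ i)⁻¹ • p.1 ∈ R i ∧ ((γ i)⁻¹ • p.1, j i) ∈ A0) ∧ p.2 = k i}, ?_, ι, hι,
    fun i => {x | x ∈ R i ∧ (x, j i) ∈ A0}, γ, j, k, fun i => ?_, fun x n => ?_,
    fun x i i' hi hi' hj => h2 x i i' hi.1 hi'.1 hj, fun x n => Iff.rfl,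
    fun x i i' hi hi' hk => h4 x i i' hi.1 hi'.1 hk⟩
  · rintro ⟨x, n⟩ ⟨i, hi, hn⟩
    exact (h3 x n).2 ⟨i, hi.1, hn⟩
  · exact (h0 i).inter
      ((measurable_id.prodMk measurable_const : Measurable fun x : X => (x, j i)) hA0)
  · constructor
    · intro hx
      obtain ⟨i, hi, rfl⟩ := (h1 x n).1 (hs hx)
      exact ⟨i, ⟨hi, hx⟩, rfl⟩
    · rintro ⟨i, ⟨_, hi⟩, rfl⟩
      exact hi

/-- the shift of a set by `k` levels -/
def sh (k : ℕ) (S : Set (X × ℕ)) : Set (X × ℕ) := {p | k ≤ p.2 ∧ (p.1, p.2 - k) ∈ S}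

theorem measurableSet_sh (k : ℕ) {S : Set (X × ℕ)} (hS : MeasurableSet S) :
    MeasurableSet (sh k S) := by
  refine (measurable_snd (MeasurableSet.of_discrete (s := {n : ℕ | k ≤ n}))).inter ?_
  exact (measurable_fst.prodMk ((Measurable.of_discrete (f := fun n : ℕ => n - k)).comp
    measurable_snd) : Measurable fun p : X × ℕ => (p.1, p.2 - k)) hS

theorem eq_sh (Γ : Type) [Group Γ] [MulAction Γ X] (k : ℕ) {S : Set (X × ℕ)} (hS : MeasurableSet S)
    (hb : ∃ b, ∀ p ∈ S, p.2 ≤ b) : EQ Γ S (sh k S) := by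
  obtain ⟨b, hb⟩ := hb
  refine ⟨Fin (b + 1), inferInstance, fun i => {x | (x, (i : ℕ)) ∈ S}, fun _ => 1, fun i => i,
    fun i => i + k, fun i => ?_, fun x n => ?_, fun x i i' _ _ hj => Fin.ext hj, fun x n => ?_,
    fun x i i' _ _ hk => Fin.ext (by simpa using hk)⟩
  · exact (measurable_id.prodMk measurable_const : Measurable fun x : X => (x, (i : ℕ))) hS
  · constructor
    · intro hx
      exact ⟨⟨n, Nat.lt_succ_of_le (hb _ hx)⟩, hx, rfl⟩
    · rintro ⟨i, hi, rfl⟩
      exact hi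
  · constructor
    · rintro ⟨hn, hx⟩
      refine ⟨⟨n - k, Nat.lt_succ_of_le (hb _ hx)⟩, ?_, ?_⟩
      · rw [inv_one, one_smul]
        exact hx
      · show n = n - k + k
        have : k ≤ n := hn
        omega
    · rintro ⟨i, hi, rfl⟩
      rw [inv_one, one_smul] at hi
      refine ⟨Nat.le_add_left _ _, ?_⟩
      show (x, (i : ℕ) + k - k) ∈ S
      rw [Nat.add_sub_cancel]
      exact hi

theorem EQ.refl (Γ : Type) [Group Γ] [MulAction Γ X] {S : Set (X × ℕ)} (hS : MeasurableSet S)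
    (hb : ∃ b, ∀ p ∈ S, p.2 ≤ b) : EQ Γ S S := by
  have h := eq_sh Γ 0 hS hb
  have e : sh 0 S = S := by
    ext ⟨x, n⟩
    exact ⟨fun h => h.2, fun h => ⟨Nat.zero_le _, h⟩⟩
  rwa [e] at h

end general

/-- bounded Borel subsets of `X × ℕ` -/
structure BB (X : Type) [MeasurableSpace X] where
  /-- the set -/
  s : Set (X × ℕ)
  meas : MeasurableSet s
  bdd : ∃ b, ∀ p ∈ s, p.2 ≤ b

section

variable (Γ X : Type) [Group Γ] [MeasurableSpace X] [MulAction Γ X] [MeasurableConstSMul Γ X]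

theorem hm : ∀ g : Γ, Measurable fun x : X => g • x := fun g => measurable_const_smul g

/-- equidecomposability of bounded Borel sets -/
@[reducible] def bbSetoid : Setoid (BB X) where
  r A B := Equidec Γ A.s B.s
  iseqv :=
    { refl := fun A => (EQ.refl Γ A.meas A.bdd).equidec (hm Γ X)
      symm := fun h => (h.eq.symm (hm Γ X)).equidec (hm Γ X)
      trans := fun h h' => (h.eq.trans (hm Γ X) h'.eq).equidec (hm Γ X) }

/-- the type semigroup of an action -/
def TypeSemigroup : Type := Quotient (bbSetoid Γ X)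

variable {X}

/-- a level above all the levels of a bounded set -/
noncomputable def BB.lev (A : BB X) : ℕ := A.bdd.choose + 1

theorem BB.lt_lev (A : BB X) {p : X × ℕ} (hp : p ∈ A.s) : p.2 < A.lev :=
  Nat.lt_succ_of_le (A.bdd.choose_spec p hp)

/-- the sum of `A` and `B`: the union of `A` and of a copy of `B` shifted to levels above those
of `A` -/
noncomputable def BB.add (A B : BB X) : BB X where
  s := A.s ∪ sh A.lev B.s
  meas := A.meas.union (measurableSet_sh _ B.meas)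
  bdd := by
    refine ⟨A.lev + B.lev, fun p hp => ?_⟩
    rcases hp with hp | hp
    · have := A.lt_lev hp
      omega
    · have h1 := hp.1
      have h2 := B.lt_lev hp.2
      have h3 : p.2 - A.lev < B.lev := h2
      omega

/-- the empty set -/
def BB.empty : BB X where
  s := ∅
  meas := MeasurableSet.empty
  bdd := ⟨0, fun p hp => absurd hp (Set.notMem_empty p)⟩

theorem disj_sh (A : BB X) (B : Set (X × ℕ)) : Disjoint A.s (sh A.lev B) := by
  rw [Set.disjoint_left]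
  intro p hp hp'
  have h1 := A.lt_lev hp
  have h2 := hp'.1
  omega

theorem bdd_sh (k : ℕ) (B : BB X) : ∃ b, ∀ p ∈ sh k B.s, p.2 ≤ b := by
  refine ⟨k + B.lev, fun p hp => ?_⟩
  have h2 : p.2 - k < B.lev := B.lt_lev hp.2
  omega

theorem eq_sh_sh (k l : ℕ) (B : BB X) : EQ Γ (sh k B.s) (sh l B.s) :=
  ((eq_sh Γ k B.meas B.bdd).symm (hm Γ X)).trans (hm Γ X) (eq_sh Γ l B.meas B.bdd)

theorem add_congr {A A' B B' : BB X} (hA : EQ Γ A.s A'.s) (hB : EQ Γ B.s B'.s) :
    EQ Γ (A.add B).s (A'.add B').s :=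
  EQ.union hA ((((eq_sh Γ A.lev B.meas B.bdd).symm (hm Γ X)).trans (hm Γ X) hB).trans (hm Γ X)
    (eq_sh Γ A'.lev B'.meas B'.bdd)) (disj_sh _ _) (disj_sh _ _)

theorem zero_add' (A : BB X) : EQ Γ ((BB.empty : BB X).add A).s A.s := by
  have e : ((BB.empty : BB X).add A).s = sh (BB.empty : BB X).lev A.s := Set.empty_union _
  rw [e]
  exact (eq_sh Γ _ A.meas A.bdd).symm (hm Γ X)

theorem add_comm' (A B : BB X) : EQ Γ (A.add B).s (B.add A).s := by
  have e : (B.add A).s = sh B.lev A.s ∪ B.s := Set.union_comm _ _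
  rw [e]
  exact EQ.union (eq_sh Γ _ A.meas A.bdd) ((eq_sh Γ _ B.meas B.bdd).symm (hm Γ X)) (disj_sh _ _)
    (disj_sh _ _).symm

theorem add_assoc' (A B C : BB X) : EQ Γ ((A.add B).add C).s (A.add (B.add C)).s := by
  have e : (A.add (B.add C)).s = (A.s ∪ sh A.lev B.s) ∪ sh A.lev (sh B.lev C.s) := by
    rw [Set.union_assoc]
    show A.s ∪ sh A.lev (B.s ∪ sh B.lev C.s) = _
    congr 1
    ext p
    constructor
    · rintro ⟨h1, h2 | h2⟩
      · exact Or.inl ⟨h1, h2⟩
      · exact Or.inr ⟨h1, h2⟩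
    · rintro (h | h)
      · exact ⟨h.1, Or.inl h.2⟩
      · exact ⟨h.1, Or.inr h.2⟩
  rw [e]
  refine EQ.union (EQ.refl Γ (A.add B).meas (A.add B).bdd) ?_ (disj_sh _ _) ?_
  · have h1 : EQ Γ (sh B.lev C.s) (sh A.lev (sh B.lev C.s)) :=
      eq_sh Γ A.lev (measurableSet_sh _ C.meas) (bdd_sh _ C)
    exact (eq_sh_sh Γ _ B.lev C).trans (hm Γ X) h1
  · rw [Set.disjoint_left]
    rintro p (hp | hp) ⟨h1, h2⟩
    · have := A.lt_lev hp
      omega
    · have h3 : p.2 - A.lev < B.lev := B.lt_lev hp.2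
      have h4 : B.lev ≤ p.2 - A.lev := h2.1
      omega

noncomputable instance : Add (TypeSemigroup Γ X) where
  add := Quotient.map₂ BB.add fun _ _ hA _ _ hB =>
    (add_congr Γ (Equidec.eq hA) (Equidec.eq hB)).equidec (hm Γ X)

noncomputable instance : Zero (TypeSemigroup Γ X) where
  zero := Quotient.mk _ BB.empty

noncomputable instance : AddCommMonoid (TypeSemigroup Γ X) where
  add_assoc := by
    rintro ⟨A⟩ ⟨B⟩ ⟨C⟩
    exact Quotient.sound ((add_assoc' Γ A B C).equidec (hm Γ X))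
  zero_add := by
    rintro ⟨A⟩
    exact Quotient.sound ((zero_add' Γ A).equidec (hm Γ X))
  add_zero := by
    rintro ⟨A⟩
    exact Quotient.sound (((add_comm' Γ A BB.empty).trans (hm Γ X) (zero_add' Γ A)).equidec
      (hm Γ X))
  add_comm := by
    rintro ⟨A⟩ ⟨B⟩
    exact Quotient.sound ((add_comm' Γ A B).equidec (hm Γ X))
  nsmul := nsmulRec

/-- the class of a bounded Borel set -/
def TypeSemigroup.mk (A : BB X) : TypeSemigroup Γ X := Quotient.mk (bbSetoid Γ X) A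

theorem mk_add (A B : BB X) :
    TypeSemigroup.mk Γ A + TypeSemigroup.mk Γ B = TypeSemigroup.mk Γ (A.add B) := rfl

theorem mk_eq {A B : BB X} : TypeSemigroup.mk Γ A = TypeSemigroup.mk Γ B ↔ Equidec Γ A.s B.s :=
  ⟨fun h => Quotient.exact h, fun h => Quotient.sound h⟩

theorem mk_empty : TypeSemigroup.mk Γ (BB.empty : BB X) = 0 := rfl

/-- the preorder of the type semigroup -/
def TypeSemigroup.LE {Γ : Type} [Group Γ] [MulAction Γ X] [MeasurableConstSMul Γ X]
    (α β : TypeSemigroup Γ X) : Prop := ∃ γ, β = α + γ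

theorem le_iff {A B : BB X} : TypeSemigroup.LE (TypeSemigroup.mk Γ A) (TypeSemigroup.mk Γ B) →
    ∃ C ⊆ B.s, Equidec Γ A.s C := by
  rintro ⟨⟨D⟩, h⟩
  have h1 : EQ Γ B.s (A.add D).s := ((mk_eq Γ).1 h).eq
  obtain ⟨C, hC, h2⟩ := (h1.symm (hm Γ X)).restrict A.meas Set.subset_union_left
  exact ⟨C, hC, h2.equidec (hm Γ X)⟩

end

end Pool.Agent.Q214.PP
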